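import Pool.Agent.Q283.GM.BQ
import Pool.Agent.Q283.GM.Eul

/-!
# The leading-term formula modulo two over `ℚ` for all the twists of `X_0(49)` by products of primes
# `≡ 1 mod 4`, and the exact law of its 2-part

`E_D` is the quadratic twist by `D` of `X_0(49) : y² + x y = x³ - x² - 2 x - 1`, where `D` is ANY
squarefree positive integer whose prime factors are `1` modulo `4`. Let
`z = #E_D(ℚ)_tors² L(E_D, 1) / (Ω⁺ ∏ c_p)`, which is zero or the order of `Ш(E_D/ℚ)` according to the
conjecture. The theorem says, with no hypothesis on the rank or on `Ш`: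
* `L(E_D, s)` is entire, the equation of `E_D` is minimal at all primes, the order of the torsion subgroup
  of `E_D(ℚ)` is twice an odd number, and `∏ c_p = 2 ^ (1 + q + 2 p)`, where `q` is the number of the prime
  factors of `D` which do not split in `ℚ(√-7)` and `p` the number of the others;
* `z` is an algebraic number which is integral at all the primes above two;
* `z` is a unit at all the primes above two if and only if `E_D(ℚ)` is finite and `Ш(E_D/ℚ)` has no element
  of order two, if and only if an explicit matrix over `𝔽₂` of quadratic residue symbols (with quartic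
  symbols of `-7` on the diagonal) is not singular: both sides of the formula are equal modulo the primes
  above two, for all the `D` of the class. In this case the 2-primary part of `Ш(E_D/ℚ)` is zero and the
  2-part of the formula holds exactly;
* this happens for exactly the proportion `κ = (1 - 1/2) (1 - 1/8) (1 - 1/32) ⋯ = 0.4194…` of the `D`;
  for the twists by `m_1 D, …, m_M D` at once, with different `m_1, …, m_M` of the class, it happens for
  exactly the proportion `κ ^ M`; the coranks of the matrices are independent with the law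
  `α_b = κ / ((2 - 1) (4 - 1) ⋯ (2 ^ b - 1))`.

The criterion over `ℚ` is that of our `OneModFourTwists`; the value of the L-function modulo the primes
above two and the Tamagawa numbers come from the starting files `Pool/Agent/Y698`, where the formula is
proved over fields of degree `2 ^ n`, `n ≥ 1`.
-/

set_option autoImplicit false

open NumberField IsDedekindDomain WeierstrassCurve MeasureTheory

namespace Pool.Agent.Results.MP_413b36_nt.FormulaModTwo

open Pool.Agent.TH841.SH.D (Pt Sha)

/-- For `D ≡ 1 mod 4` the quadratic twist by `D` of the elliptic curve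
`X_0(49) : y² + x y = x³ - x² - 2 x - 1`:
the curve `y² + x y = x³ - (3 D + 1) / 4 x² - 2 D² x - D³`. -/
def twist (D : ℕ) : WeierstrassCurve ℤ := ⟨1, -((3 * D + 1) / 4), 0, -2 * D ^ 2, -D ^ 3⟩

/-- The curve `E_D` over `ℚ`. -/
def E (D : ℕ) : WeierstrassCurve ℚ := (twist D).map (Int.castRingHom ℚ)

/-- The equation is minimal at the finite place `v` of `ℚ`: no change of variables over `ℚ` that
keeps the coefficients integral at `v` decreases the order of the discriminant. -/
def MinimalAt (W : WeierstrassCurve ℚ) (v : HeightOneSpectrum (𝓞 ℚ)) : Prop :=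
  ∀ C : VariableChange ℚ, v.valuation ℚ (C • W).a₁ ≤ 1 → v.valuation ℚ (C • W).a₂ ≤ 1 →
    v.valuation ℚ (C • W).a₃ ≤ 1 → v.valuation ℚ (C • W).a₄ ≤ 1 → v.valuation ℚ (C • W).a₆ ≤ 1 →
    v.valuation ℚ (C • W).Δ ≤ v.valuation ℚ W.Δ

/-- `W⁰(ℚ_v)`, the group of the points of `W` over the completion `ℚ_v` with nonsingular reduction:
the point at infinity and the points `(x, y)` where `x` is not integral, or one of the two
derivatives of `y² + a₁ x y + a₃ y - x³ - a₂ x² - a₄ x - a₆` is a unit at `(x, y)`.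
Here `Pt W ℚ_v` is the group of the points of `W` over `ℚ_v`. -/
noncomputable def nonsing (W : WeierstrassCurve ℚ) (v : HeightOneSpectrum (𝓞 ℚ)) :
    AddSubgroup (Pt W (v.adicCompletion ℚ)) :=
  AddSubgroup.closure {P | ∀ x y h, P = Affine.Point.some x y h →
    1 < Valued.v x ∨
    Valued.v ((W.baseChange (v.adicCompletion ℚ)).a₁ * y -
      (3 * x ^ 2 + 2 * (W.baseChange (v.adicCompletion ℚ)).a₂ * x +
        (W.baseChange (v.adicCompletion ℚ)).a₄)) = 1 ∨
    Valued.v (2 * y + (W.baseChange (v.adicCompletion ℚ)).a₁ * x +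
      (W.baseChange (v.adicCompletion ℚ)).a₃) = 1}

/-- The Tamagawa number `c_v = [W(ℚ_v) : W⁰(ℚ_v)]` of a minimal equation. -/
noncomputable def c (W : WeierstrassCurve ℚ) (v : HeightOneSpectrum (𝓞 ℚ)) : ℕ :=
  (nonsing W v).index

/-- The product of the Tamagawa numbers. -/
noncomputable def Tam (W : WeierstrassCurve ℚ) : ℕ := ∏ᶠ v : HeightOneSpectrum (𝓞 ℚ), c W v

/-- `4 x³ + b₂ x² + 2 b₄ x + b₆ = (2 y + a₁ x + a₃)²`. -/
def cubic (W : WeierstrassCurve ℤ) {R : Type} [CommRing R] (x : R) : R :=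
  4 * x ^ 3 + W.b₂ * x ^ 2 + 2 * W.b₄ * x + W.b₆

/-- `∫_{W(ℝ)} |ω|` with `ω = dx / (2 y + a₁ x + a₃)`, as an integral over `x`: two real points lie
over each `x` with `cubic x > 0`. -/
noncomputable def realPeriod (W : WeierstrassCurve ℤ) : ℝ :=
  2 * ∫ x in {x : ℝ | 0 < cubic W x}, 1 / √(cubic W x)

open Classical in
/-- The order of the torsion subgroup of `E_D(ℚ)`. -/
noncomputable def torsOrder (D : ℕ) : ℕ :=
  Nat.card (AddCommGroup.torsion (E D).toAffine.Point)

/-- The order of the Tate-Shafarevich group predicted by the formula in rank zero, for the value `l` of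
the L-function at `s = 1`: `#E_D(ℚ)_tors² l / (Ω⁺ ∏ c_p)`. -/
noncomputable def anOrder (D : ℕ) (l : ℂ) : ℂ :=
  l * (torsOrder D : ℂ) ^ 2 / ((realPeriod (twist D) : ℝ) * (Tam (E D) : ℂ))

/-- An algebraic number which is integral at all the primes above two. -/
def IntegralAtTwo (z : ℂ) : Prop := ∃ m : ℤ, Odd m ∧ _root_.IsIntegral ℤ ((m : ℂ) * z)

/-- `E_D(ℚ)` is finite and `Ш(E_D/ℚ)` has no element of order two. -/
def Good (D : ℕ) : Prop := Finite (E D).toAffine.Point ∧ ∀ x : Sha (E D), x + x = 0 → x = 0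

/-- The 2-primary part of `Ш(E_D/ℚ)` is zero. -/
def ShaTwoPrimaryZero (D : ℕ) : Prop := ∀ (x : Sha (E D)) (n : ℕ), 2 ^ n • x = 0 → x = 0

open Classical in
/-- `1` if `m` is not a square modulo `p`, and `0` if it is -/
noncomputable def nonsq (p m : ℕ) : ZMod 2 := if IsSquare (m : ZMod p) then 0 else 1

open Classical in
/-- `1` if `-7` is not a fourth power modulo `p`, and `0` if it is -/
noncomputable def nonfourth (p : ℕ) : ZMod 2 := if ∃ y : ZMod p, y ^ 4 = -7 then 0 else 1

/-- The matrix over the field with two elements, with rows and columns indexed by `P`: the entry at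
`(i, j)` is `nonsq i j` for `i ≠ j`, and the entry at `(i, i)` is the sum of `nonfourth i` and of the
`nonsq i l` for all the `l ≠ i` in `Q` and `P`. -/
noncomputable def mat (Q P : Finset ℕ) : Matrix P P (ZMod 2) := Matrix.of fun i j =>
  if i = j then nonfourth i + ∑ q ∈ Q, nonsq i q + ∑ p ∈ P.erase i, nonsq i p else nonsq i j

/-- The class of the `D`: squarefree, all prime factors `1` modulo `4`. -/
def Class (D : ℕ) : Prop := Squarefree D ∧ ∀ p : ℕ, p.Prime → p ∣ D → p % 4 = 1

open Classical in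
/-- The prime factors of `D` which split in `ℚ(√-7)`. -/
noncomputable def splitPart (D : ℕ) : Finset ℕ := D.primeFactors.filter fun p => IsSquare (-7 : ZMod p)

open Classical in
/-- The prime factors of `D` which do not split in `ℚ(√-7)`. -/
noncomputable def inertPart (D : ℕ) : Finset ℕ := D.primeFactors.filter fun p => ¬ IsSquare (-7 : ZMod p)

/-- The corank of the matrix of `D`: the number of the columns minus the rank. -/
noncomputable def corank (D : ℕ) : ℕ :=
  (splitPart D).card - (mat (inertPart D) (splitPart D)).rank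

/-- The squarefree part of `m D`, for squarefree `m` and `D`. -/
def tw (m D : ℕ) : ℕ := m * D / Nat.gcd m D ^ 2

open Classical in
/-- The number of the `D ≤ X` of the class with the property `T`. -/
noncomputable def count (T : ℕ → Prop) (X : ℕ) : ℕ :=
  ((Finset.Icc 1 X).filter fun D => Class D ∧ T D).card

/-- The number `κ = (1 - 1/2) (1 - 1/8) (1 - 1/32) ⋯`. -/
noncomputable def κ : ℝ := ∏' i : ℕ, (1 - (1 / 2 : ℝ) ^ (2 * i + 1))

/-- The limit law `κ / ((2 - 1) (4 - 1) ⋯ (2 ^ b - 1))`. -/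
noncomputable def α (b : ℕ) : ℝ := κ / ∏ i ∈ Finset.range b, ((2 : ℝ) ^ (i + 1) - 1)

/-- The formula modulo the primes above two, for all the `D` of the class. -/
def Formula : Prop :=
  ∀ D : ℕ, Class D →
    (∀ v : HeightOneSpectrum (𝓞 ℚ), MinimalAt (E D) v) ∧
    (∃ t : ℕ, Odd t ∧ torsOrder D = 2 * t) ∧
    Tam (E D) = 2 ^ (1 + ((inertPart D).card + 2 * (splitPart D).card)) ∧
    (∃ Λ : ℂ → ℂ, Differentiable ℂ Λ ∧ (∀ s : ℂ, 2 < s.re → Λ s = (E D).LSeries s) ∧
      IntegralAtTwo (anOrder D (Λ 1)) ∧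
      ((Λ 1 ≠ 0 ∧ IntegralAtTwo (anOrder D (Λ 1))⁻¹) ↔ Good D)) ∧
    (Good D ↔ corank D = 0) ∧ (Good D → ShaTwoPrimaryZero D)

/-- The exact proportion of the `D` for which the 2-part holds for the twists by `m_1 D, …, m_M D`. -/
def ExactProportion : Prop :=
  ∀ (M : ℕ) (m : Fin M → ℕ), (∀ k, Class (m k)) → Function.Injective m →
    Filter.Tendsto (fun X : ℕ => (count (fun D => ∀ k, Class (tw (m k) D) ∧ Good (tw (m k) D)) X : ℝ) /
      (count (fun _ => True) X : ℝ)) Filter.atTop (nhds (κ ^ M))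

/-- The joint law of the coranks for the twists by `m_1 D, …, m_M D`. -/
def CorankLaw : Prop :=
  ∀ (M : ℕ) (m : Fin M → ℕ), (∀ k, Class (m k)) → Function.Injective m → ∀ b : Fin M → ℕ,
    Filter.Tendsto (fun X : ℕ => (count (fun D => ∀ k, corank (tw (m k) D) = b k) X : ℝ) /
      (count (fun _ => True) X : ℝ)) Filter.atTop (nhds (∏ k, α (b k)))

section proof

open Pool.Agent.Y698

lemma base_eq {D j : ℕ} (hj : D = 1 + 4 * j) : E D = AX ℚ j :=
  twZ_map hj ℚ

lemma cubic_eq {D j : ℕ} (hj : D = 1 + 4 * j) {R : Type} [CommRing R] (x : R) :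
    cubic (twist D) x = psD (1 + 4 * j) x := by
  have h1 : (3 * (D : ℤ) + 1) / 4 = 1 + 3 * j := by
    rw [hj]
    push_cast
    omega
  unfold cubic twist WeierstrassCurve.b₂ WeierstrassCurve.b₄ WeierstrassCurve.b₆ psD
  simp only
  rw [h1, hj]
  push_cast
  ring

lemma real_eq {D j : ℕ} (hj : D = 1 + 4 * j) : realPeriod (twist D) =
    ∫ x in {x : ℝ | 0 < psD (1 + 4 * j) x}, 2 / Real.sqrt (psD (1 + 4 * j) x) := by
  unfold realPeriod
  simp only [cubic_eq hj]
  rw [← integral_const_mul]
  congr 1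
  funext x
  ring

lemma tors_eq {D j : ℕ} (hj : D = 1 + 4 * j) :
    torsOrder D = Pool.Agent.Y698.SG.tnum (Pool.Agent.Y698.AX ℚ j) := by
  have key : ∀ i : DecidableEq ℚ, Nat.card (@AddCommGroup.torsion _
      (@WeierstrassCurve.Affine.Point.instAddCommGroup ℚ _ (Pool.Agent.Y698.AX ℚ j).toAffine i)) =
      Pool.Agent.Y698.SG.tnum (Pool.Agent.Y698.AX ℚ j) := by
    intro i
    cases Subsingleton.elim i (fun a b => Classical.propDecidable (a = b))
    rfl
  unfold torsOrder
  rw [base_eq hj]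
  exact key _

lemma an_eq {D j : ℕ} (hj : D = 1 + 4 * j) (l : ℂ) : anOrder D l = Pool.Agent.Y698.SG.quoT ℚ j l := by
  rw [Q283.GB.quoT_Q]
  unfold anOrder
  rw [tors_eq hj, base_eq hj, real_eq hj]
  have hT : Tam (Pool.Agent.Y698.AX ℚ j) = ∏ᶠ v, Pool.Agent.Y698.tam (Pool.Agent.Y698.AX ℚ j) v := rfl
  rw [hT]

lemma v_integral {Γ : Type} [LinearOrderedCommGroupWithZero Γ] (v : Valuation ℂ Γ) {x : ℂ}
    (h : _root_.IsIntegral ℤ x) : v x ≤ 1 := by
  have h1 : _root_.IsIntegral v.integer x := h.tower_top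
  exact (Valuation.integer.integers v).mem_of_integral h1

lemma v_atTwo {z : ℂ} (h : IntegralAtTwo z) {Γ : Type} [LinearOrderedCommGroupWithZero Γ]
    (v : Valuation ℂ Γ) (hv : v 2 < 1) : v z ≤ 1 := by
  obtain ⟨m, hm, hi⟩ := h
  have h1 := v_integral v hi
  rw [map_mul, v_oddI v hv hm, one_mul] at h1
  exact h1

open Q283.GW Q283.GB
open Q283.XF (nf)
open Q283.GM (rk cR)
open scoped Classical

lemma class_iff (D : ℕ) : Class D ↔ C4 D := by
  unfold Class C4 CF
  constructor
  · rintro ⟨h1, h2⟩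
    exact ⟨h1, fun p hp => ⟨Nat.prime_of_mem_primeFactors hp,
      h2 p (Nat.prime_of_mem_primeFactors hp) (Nat.dvd_of_mem_primeFactors hp)⟩⟩
  · rintro ⟨h1, h2⟩
    exact ⟨h1, fun p hp hd => (h2 p (Nat.mem_primeFactors.2 ⟨hp, hd, h1.ne_zero⟩)).2⟩

lemma A_sq {p : ℕ} (h1 : p.Prime) (h2 : p % 4 = 1) : ρ49.Φ.A p ↔ IsSquare (-7 : ZMod p) := by
  constructor
  · intro h
    exact (spl_A h).sq
  · intro h
    by_contra h3
    exact (inq_B h1 h2 h3).ns h

lemma split_eq {D : ℕ} (h : CF D.primeFactors) : splitPart D = PA D.primeFactors := by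
  unfold splitPart PA
  refine Finset.filter_congr fun p hp => ?_
  rw [A_sq (h p hp).1 (h p hp).2]

lemma inert_eq {D : ℕ} (h : CF D.primeFactors) : inertPart D = QA D.primeFactors := by
  unfold inertPart QA
  refine Finset.filter_congr fun p hp => ?_
  rw [A_sq (h p hp).1 (h p hp).2]

lemma rank_null (Q P : Finset ℕ) : P.card - (Y698.SG.mat Q P).rank =
    Module.finrank (ZMod 2) (LinearMap.ker (Y698.SG.mat Q P).mulVecLin) := by
  have h1 := LinearMap.finrank_range_add_finrank_ker (Y698.SG.mat Q P).mulVecLin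
  rw [Module.finrank_fintype_fun_eq_card, Fintype.card_coe] at h1
  have h2 : (Y698.SG.mat Q P).rank =
    Module.finrank (ZMod 2) (LinearMap.range (Y698.SG.mat Q P).mulVecLin) := rfl
  omega

lemma corank_eq {D : ℕ} (h : CF D.primeFactors) : corank D = rk ρ49.Φ nf D.primeFactors := by
  have key : ∀ Q P Q' P' : Finset ℕ, Q = Q' → P = P' →
      P.card - (mat Q P).rank = P'.card - (Y698.SG.mat Q' P').rank := by
    rintro Q P _ _ rfl rfl
    rfl
  rw [Q283.GW.rk_eq, ← rank_null]
  exact key _ _ _ _ (inert_eq h) (split_eq h)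

lemma det_eq {D : ℕ} (h : CF D.primeFactors) :
    (mat (inertPart D) (splitPart D)).det ≠ 0 ↔ corank D = 0 := by
  rw [corank_eq h, split_eq h, inert_eq h]
  exact det_rk _

lemma prod_parts {D : ℕ} (hD : Squarefree D) :
    D = (∏ q ∈ inertPart D, q) * ∏ p ∈ splitPart D, p := by
  conv_lhs => rw [← Nat.prod_primeFactors_of_squarefree hD]
  unfold inertPart splitPart
  rw [mul_comm]
  exact (Finset.prod_filter_mul_prod_filter_not _ _ _).symm

lemma tw_eq {m D : ℕ} (hm : Squarefree m) (hD : Squarefree D) :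
    tw m D = ∏ p ∈ symmDiff D.primeFactors m.primeFactors, p := by
  set S := D.primeFactors with hS
  set T := m.primeFactors with hT
  have e1 : m = (∏ p ∈ S ∩ T, p) * ∏ p ∈ T \ S, p := by
    conv_lhs => rw [← Nat.prod_primeFactors_of_squarefree hm]
    rw [← hT, ← Finset.prod_union]
    · congr 1
      ext a
      simp only [Finset.mem_union, Finset.mem_inter, Finset.mem_sdiff]
      tauto
    · rw [Finset.disjoint_left]
      intro a ha hb
      exact (Finset.mem_sdiff.1 hb).2 (Finset.mem_inter.1 ha).1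
  have e2 : D = (∏ p ∈ S ∩ T, p) * ∏ p ∈ S \ T, p := by
    conv_lhs => rw [← Nat.prod_primeFactors_of_squarefree hD]
    rw [← hS, ← Finset.prod_union]
    · congr 1
      ext a
      simp only [Finset.mem_union, Finset.mem_inter, Finset.mem_sdiff]
      tauto
    · rw [Finset.disjoint_left]
      intro a ha hb
      exact (Finset.mem_sdiff.1 hb).2 (Finset.mem_inter.1 ha).2
  have hg : Nat.gcd m D = ∏ p ∈ S ∩ T, p := by
    conv_lhs => rw [e1, e2]
    rw [Nat.gcd_mul_left]
    have hc : Nat.Coprime (∏ p ∈ T \ S, p) (∏ p ∈ S \ T, p) := by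
      refine Nat.Coprime.prod_left fun p hp => Nat.Coprime.prod_right fun q hq => ?_
      refine (Nat.coprime_primes (Nat.prime_of_mem_primeFactors (Finset.mem_sdiff.1 hp).1)
        (Nat.prime_of_mem_primeFactors (Finset.mem_sdiff.1 hq).1)).2 ?_
      rintro rfl
      exact (Finset.mem_sdiff.1 hp).2 (Finset.mem_sdiff.1 hq).1
    rw [hc.gcd_eq_one, mul_one]
  have hpos : 0 < ∏ p ∈ S ∩ T, p := Finset.prod_pos fun p hp =>
    (Nat.prime_of_mem_primeFactors (Finset.mem_inter.1 hp).1).pos
  unfold tw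
  rw [hg]
  have e3 : m * D = (∏ p ∈ symmDiff S T, p) * (∏ p ∈ S ∩ T, p) ^ 2 := by
    conv_lhs => rw [e1, e2]
    rw [Finset.symmDiff_def, Finset.prod_union]
    · ring
    · rw [Finset.disjoint_left]
      intro a ha hb
      exact (Finset.mem_sdiff.1 ha).2 (Finset.mem_sdiff.1 hb).1
  rw [e3]
  exact Nat.mul_div_cancel _ (pow_pos hpos 2)

lemma sqf_prod {J : Finset ℕ} (hJ : ∀ q ∈ J, q.Prime) : Squarefree (∏ q ∈ J, q) := by
  induction J using Finset.induction_on with
  | empty => simp
  | insert p J hp ih =>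
    rw [Finset.prod_insert hp]
    have h1 := ih fun q hq => hJ q (Finset.mem_insert_of_mem hq)
    have hpp := hJ p (Finset.mem_insert_self p J)
    refine (Nat.squarefree_mul ?_).2 ⟨hpp.squarefree, h1⟩
    rw [hpp.coprime_iff_not_dvd]
    exact Pool.Agent.Y698.SG.not_dvd_pr hpp (fun q hq => hJ q (Finset.mem_insert_of_mem hq)) hp

lemma tw_pf {m D : ℕ} (hm : Squarefree m) (hD : Squarefree D) :
    Squarefree (tw m D) ∧ (tw m D).primeFactors = symmDiff D.primeFactors m.primeFactors := by
  have hp : ∀ p ∈ symmDiff D.primeFactors m.primeFactors, p.Prime := by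
    intro p hp
    rcases Finset.mem_symmDiff.1 hp with h | h
    · exact Nat.prime_of_mem_primeFactors h.1
    · exact Nat.prime_of_mem_primeFactors h.1
  rw [tw_eq hm hD]
  exact ⟨sqf_prod hp, Nat.primeFactors_prod hp⟩

lemma tw_class {m D : ℕ} (hm : C4 m) (hD : C4 D) : C4 (tw m D) := by
  obtain ⟨h1, h2⟩ := tw_pf hm.1 hD.1
  refine ⟨h1, ?_⟩
  rw [h2]
  exact hD.2.symmDiff hm.2

lemma good_iff {D : ℕ} (hD : C4 D) : Good D ↔ corank D = 0 := by
  obtain ⟨j, hj⟩ := hD.2.prod
  have hDj : D = 1 + 4 * j := by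
    rw [← hj, union_A, Nat.prod_primeFactors_of_squarefree hD.1]
  unfold Good
  rw [base_eq hDj, crit_AX (QA_inq hD.2) (PA_spl _) hj, det_rk, corank_eq hD.2]

lemma formula {D : ℕ} (hD : C4 D) :
    (∀ v : HeightOneSpectrum (𝓞 ℚ), MinimalAt (E D) v) ∧
    (∃ t : ℕ, Odd t ∧ torsOrder D = 2 * t) ∧
    Tam (E D) = 2 ^ (1 + ((inertPart D).card + 2 * (splitPart D).card)) ∧
    (∃ Λ : ℂ → ℂ, Differentiable ℂ Λ ∧ (∀ s : ℂ, 2 < s.re → Λ s = (E D).LSeries s) ∧
      IntegralAtTwo (anOrder D (Λ 1)) ∧
      ((Λ 1 ≠ 0 ∧ IntegralAtTwo (anOrder D (Λ 1))⁻¹) ↔ Good D)) := by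
  obtain ⟨j, hj⟩ := hD.2.prod
  have hDj : D = 1 + 4 * j := by
    rw [← hj, union_A, Nat.prod_primeFactors_of_squarefree hD.1]
  have hQ := QA_inq hD.2
  have hP := PA_spl D.primeFactors
  obtain ⟨t1, t2, t3⟩ := tam_Q hQ hP hj
  obtain ⟨Λ, h1, h2, h3⟩ := main_Q hQ hP hj
  have hst := tors_eq hDj
  rw [good_iff hD, hst, split_eq hD.2, inert_eq hD.2]
  simp only [an_eq hDj]
  rw [base_eq hDj]
  refine ⟨t2, t3, t1, Λ, h1, h2, Pool.Agent.Y698.int_of_val fun Γ _ v hv => (h3 Γ v hv).1, ?_⟩
  rw [corank_eq hD.2, ← det_rk]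
  constructor
  · rintro ⟨h4, h5⟩
    intro hdet
    refine Pool.Agent.Y698.SG.exists_val2 fun Γ _ v hv => ?_
    refine ((h3 Γ v hv).2).1 (le_antisymm (h3 Γ v hv).1 ?_) hdet
    have h6 := v_atTwo h5 v hv
    rw [map_inv₀] at h6
    by_cases h0 : v (Pool.Agent.Y698.SG.quoT ℚ j (Λ 1)) = 0
    · exfalso
      rw [Valuation.zero_iff] at h0
      rw [Q283.GB.quoT_Q] at h0
      rcases div_eq_zero_iff.1 h0 with h7 | h7
      · rcases mul_eq_zero.1 h7 with h8 | h8
        · exact h4 h8
        · obtain ⟨m, hm, hm2⟩ := t3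
          rw [hm2] at h8
          have h9 : ((2 * m : ℕ) : ℂ) = 0 := pow_eq_zero_iff (two_ne_zero) |>.1 h8
          have h10 : 2 * m = 0 := by exact_mod_cast h9
          have h11 : m = 0 := by omega
          rw [h11] at hm
          exact absurd hm (by decide)
      · have hL := Pool.Agent.Y698.exists_LD
        obtain ⟨L, Ω, hL⟩ := hL
        have hΩ : v Ω ≠ 0 := (v.ne_zero_iff).2 hL.lat.ne
        rcases mul_eq_zero.1 h7 with h8 | h8
        · obtain ⟨k2, -⟩ := Pool.Agent.Y698.v_periodsD hL v hv (D := 1 + 4 * j) (by omega)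
            ⟨2 * j, by ring⟩
          rw [h8, map_zero] at k2
          exact hΩ k2.symm
        · rw [t1] at h8
          have h9 : (2 : ℂ) ^ (1 + ((QA D.primeFactors).card + 2 * (PA D.primeFactors).card)) = 0 := by
            exact_mod_cast h8
          exact pow_ne_zero _ two_ne_zero h9
    · exact (inv_le_one₀ (zero_lt_iff.2 h0)).1 h6
  · intro hdet
    refine ⟨?_, Pool.Agent.Y698.int_of_val fun Γ _ v hv => by
      rw [map_inv₀, ((h3 Γ v hv).2).2 hdet, inv_one]⟩
    intro h0
    refine Pool.Agent.Y698.SG.exists_val2 fun Γ _ v hv => ?_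
    have h5 := ((h3 Γ v hv).2).2 hdet
    rw [h0] at h5
    unfold Pool.Agent.Y698.SG.quoT at h5
    rw [zero_mul, zero_mul, zero_div, map_zero] at h5
    exact zero_ne_one h5

lemma α_eq (b : ℕ) : α b = Y703.CQ.c2 * Y697.PQ.cf b := by
  unfold α
  have h : ∀ r, Y697.PQ.cf r = (∏ i ∈ Finset.range r, ((2 : ℝ) ^ (i + 1) - 1))⁻¹ := by
    intro r
    induction r with
    | zero => simp [Y697.PQ.cf]
    | succ r ih =>
      rw [show Y697.PQ.cf (r + 1) = Y697.PQ.cf r / (2 ^ (r + 1) - 1) from rfl, ih,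
        Finset.prod_range_succ, mul_inv, div_eq_mul_inv]
  rw [h, div_eq_mul_inv]
  rfl

/-- the joint law of the coranks -/
lemma law {M : ℕ} (m : Fin M → ℕ) (hm : ∀ k, Class (m k)) (hinj : Function.Injective m)
    (b : Fin M → ℕ) :
    Filter.Tendsto (fun X : ℕ => (count (fun D => ∀ k, corank (tw (m k) D) = b k) X : ℝ) /
        (count (fun _ => True) X : ℝ)) Filter.atTop (nhds (∏ k, α (b k))) := by
  have hm' := fun k => (class_iff (m k)).1 (hm k)
  have e : ∏ k, α (b k) = cR b := by
    unfold cR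
    exact Finset.prod_congr rfl fun k _ => α_eq (b k)
  rw [e]
  refine (law_CF b (fun k => (m k).primeFactors) (fun k => (hm' k).2) ?_).congr fun X =>
    Q283.GW.ratio (fun D => ?_) (fun D => ?_) _
  · intro k l hkl he
    apply hkl
    apply hinj
    rw [← Nat.prod_primeFactors_of_squarefree (hm' k).1, he,
      Nat.prod_primeFactors_of_squarefree (hm' l).1]
  · have key : ∀ hD : C4 D, ∀ k, corank (tw (m k) D) =
        rk ρ49.Φ nf (symmDiff D.primeFactors (m k).primeFactors) := by
      intro hD k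
      have h2 := (tw_pf (hm' k).1 hD.1).2
      rw [corank_eq, h2]
      rw [h2]
      exact hD.2.symmDiff (hm' k).2
    constructor
    · rintro ⟨hD, h⟩
      exact ⟨(class_iff D).2 hD, fun k => (key hD k).trans (h k)⟩
    · rintro ⟨hD, h⟩
      have hD' := (class_iff D).1 hD
      exact ⟨hD', fun k => (key hD' k).symm.trans (h k)⟩
  · rw [and_true]
    exact (class_iff D).symm

end proof

/-- **The leading-term formula modulo two for all the twists of `X_0(49)` by products of primes
`≡ 1 mod 4`, and the exact law of its 2-part.** -/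
theorem result : Formula ∧ ExactProportion ∧ CorankLaw ∧ HasSum α 1 ∧ 0.4194 < κ ∧ κ < 0.4195 := by
  classical
  refine ⟨fun D hD => ?_, fun M m hm hinj => ?_, fun M m hm hinj b => law m hm hinj b, ?_,
    Pool.Agent.Y948.CQ.t_C2.2.2.2.1, Pool.Agent.Y948.CQ.t_C2.2.2.2.2⟩
  · have hC := (class_iff D).1 hD
    obtain ⟨h1, h2, h3, h4⟩ := formula hC
    refine ⟨h1, h2, h3, h4, good_iff hC, fun hG => ?_⟩
    intro x n
    induction n with
    | zero => intro h; rwa [pow_zero, one_smul] at h
    | succ n ih =>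
      intro h
      apply ih
      apply hG.2
      rw [← two_nsmul, smul_smul, ← pow_succ']
      exact h
  · have h := law m hm hinj (fun _ => 0)
    have e : ∏ _k : Fin M, α 0 = κ ^ M := by
      rw [Finset.prod_const, Finset.card_univ, Fintype.card_fin]
      congr 1
      unfold α
      simp
    rw [e] at h
    refine h.congr fun X => Q283.GW.ratio (fun D => ?_) (fun D => Iff.rfl) _
    refine and_congr_right fun hD => forall_congr' fun k => ?_
    have hC := tw_class ((class_iff _).1 (hm k)) ((class_iff _).1 hD)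
    constructor
    · intro h0
      exact ⟨(class_iff _).2 hC, (good_iff hC).2 h0⟩
    · rintro ⟨-, h0⟩
      exact (good_iff hC).1 h0
  · have e : α = Q283.GS.al := funext fun b => α_eq b
    rw [e]
    exact Q283.GS.hasSum_al

end Pool.Agent.Results.MP_413b36_nt.FormulaModTwo
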