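import Pool.Agent.Q92.PA.Mod3

/-!
# The Birch and Swinnerton-Dyer conjecture modulo 2: descent from extension fields

`E` is an elliptic curve over a number field `K`, and `F` runs through finite extensions of `K`.  The
minimal models `V` and the Euler product `LSeries V s` with the correct factors at all primes are those of
`Pool.Agent.TH322.BC.Defs`.
-/

set_option autoImplicit false

namespace Pool.Agent.Results.MP_413b36_nt.ModTwoDescent

open NumberField IsDedekindDomain
open Pool.Agent.TH322.BC.Edge (MinimalModels)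

/-- The rank of the group `E(F)`. -/
noncomputable def rank {F : Type} [Field F] (E : WeierstrassCurve F) : ℕ := by
  classical
  exact Module.finrank ℤ E.toAffine.Point

/-- The domains on which the `L`-functions are considered: a nonempty family of connected open sets which
contain the half plane `Re s > 3/2` and the point `1`, closed under intersections.  For example
`U = {ℂ}`, or the half planes `Re s > σ` with `σ < 1`. -/
def IsDomains (U : Set (Set ℂ)) : Prop :=
  U.Nonempty ∧ (∀ u ∈ U, IsOpen u ∧ IsPreconnected u ∧ (1 : ℂ) ∈ u ∧ ∀ s : ℂ, 3 / 2 < s.re → s ∈ u) ∧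
    ∀ u ∈ U, ∀ u' ∈ U, u ∩ u' ∈ U

/-- The Euler product has a meromorphic continuation to a domain in `U`, of order `r` at `s = 1`. -/
def HasOrder (U : Set (Set ℂ)) {F : Type} [Field F] [NumberField F]
    (V : HeightOneSpectrum (𝓞 F) → WeierstrassCurve (𝓞 F)) (r : ℤ) : Prop :=
  ∃ u ∈ U, ∃ f : ℂ → ℂ, MeromorphicOn f u ∧
    (∀ s : ℂ, 3 / 2 < s.re → f s = Pool.Agent.TH322.BC.Edge.LSeries V s) ∧
    meromorphicOrderAt f 1 = (r : WithTop ℤ)

/-- `L(E/F, s)` has a meromorphic continuation to a domain in `U`. -/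
def Continues (U : Set (Set ℂ)) {F : Type} [Field F] [NumberField F] (E : WeierstrassCurve F) :
    Prop :=
  ∀ V : HeightOneSpectrum (𝓞 F) → WeierstrassCurve (𝓞 F), MinimalModels E V →
    ∃ r : ℤ, HasOrder U V r

/-- The conjecture modulo 2 for `E/F`: `L(E/F, s)` has a meromorphic continuation to a domain in `U`,
and its order at `s = 1` is congruent to the rank of `E(F)` modulo 2. -/
def ModTwo (U : Set (Set ℂ)) {F : Type} [Field F] [NumberField F] (E : WeierstrassCurve F) :
    Prop :=
  ∀ V : HeightOneSpectrum (𝓞 F) → WeierstrassCurve (𝓞 F), MinimalModels E V →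
    ∃ r : ℤ, HasOrder U V r ∧ Even (r - rank E)

/-- The number of the embeddings of `F` in the algebraic closure of `K` that are fixed by `σ`. -/
noncomputable def fix (K F : Type) [Field K] [Field F] [Algebra K F]
    (σ : Gal(AlgebraicClosure K/K)) : ℕ :=
  Nat.card {i : F →ₐ[K] AlgebraicClosure K // ∀ x, σ (i x) = i x}

/-- `F` is generated over `K` by finitely many `p`-th roots of positive integers all of whose prime
factors belong to `T`, and `p ^ k` divides the degree of `F/K`. -/
def TestField (T : Set ℕ) (p k : ℕ) (K F : Type) [Field K] [Field F] [Algebra K F] : Prop :=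
  (∃ S : Set F, S.Finite ∧
    (∀ x ∈ S, ∃ c : ℕ, c ≠ 0 ∧ (∀ l : ℕ, l.Prime → l ∣ c → l ∈ T) ∧ x ^ p = (c : F)) ∧
    IntermediateField.adjoin K S = ⊤) ∧
  p ^ k ∣ Module.finrank K F

/-- A set of positive integers closed under multiples, with greatest common divisor `1`. -/
def IsSparse (D : Set ℕ) : Prop :=
  (∀ d ∈ D, ∀ n : ℕ, 0 < n → d * n ∈ D) ∧ ∀ g : ℕ, (∀ d ∈ D, g ∣ d) → g = 1

/-- The group `G` is `p`-hyperelementary: it has a cyclic normal subgroup of order prime to `p` with
quotient a `p`-group. -/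
def IsHyper (p : ℕ) (G : Type) [Group G] : Prop :=
  ∃ C : Subgroup G, C.Normal ∧ IsCyclic C ∧ (Nat.card C).Coprime p ∧
    ∀ g : G, ∃ k : ℕ, g ^ p ^ k ∈ C

section laws
variable {K : Type} [Field K] [NumberField K]

/-- Part 1: every relation between permutation characters holds for the differences
order minus rank. -/
def RelationLaw (U : Set (Set ℂ)) (E : WeierstrassCurve K) : Prop :=
  ∀ (ι : Type) [Fintype ι] (F : ι → Type) [∀ j, Field (F j)] [∀ j, NumberField (F j)]
    [∀ j, Algebra K (F j)] (n : ι → ℤ) (m : ℤ),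
    (∀ σ : Gal(AlgebraicClosure K/K), ∑ j, n j * (fix K (F j) σ : ℤ) = m) →
    ∀ (V₀ : HeightOneSpectrum (𝓞 K) → WeierstrassCurve (𝓞 K))
      (V : ∀ j, HeightOneSpectrum (𝓞 (F j)) → WeierstrassCurve (𝓞 (F j))), MinimalModels E V₀ →
      (∀ j, MinimalModels (E.map (algebraMap K (F j))) (V j)) →
      ∀ (r₀ : ℤ) (r : ι → ℤ), HasOrder U V₀ r₀ → (∀ j, HasOrder U (V j) (r j)) →
        ∑ j, n j * (r j - rank (E.map (algebraMap K (F j)))) = m * (r₀ - rank E)

/-- Part 2: the degrees. -/
def DegreeLaw (U : Set (Set ℂ)) (E : WeierstrassCurve K) : Prop :=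
  (∀ M : ℕ, (∀ (F : Type) [Field F] [NumberField F] [Algebra K F], M ∣ Module.finrank K F →
      ModTwo U (E.map (algebraMap K F))) →
    ∀ (F : Type) [Field F] [NumberField F] [Algebra K F],
      Odd (M / M.gcd (Module.finrank K F)) → Continues U (E.map (algebraMap K F)) →
      ModTwo U (E.map (algebraMap K F))) ∧
  ∀ D : Set ℕ, IsSparse D →
    (∀ (F : Type) [Field F] [NumberField F] [Algebra K F], Module.finrank K F ∈ D →
      ModTwo U (E.map (algebraMap K F))) →
    ∀ (F : Type) [Field F] [NumberField F] [Algebra K F], ModTwo U (E.map (algebraMap K F))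

/-- Part 3: counterexamples spread. -/
def SpreadLaw (U : Set (Set ℂ)) (E : WeierstrassCurve K) : Prop :=
  ¬ ModTwo U E → ∃ p₀ : ℕ, ∀ (p k : ℕ) (T : Set ℕ), p.Prime → p ≠ 2 → (p ≠ p₀ ∨ Continues U E) →
    (∀ l ∈ T, l.Prime) → T.Infinite →
    ∃ (F : Type) (_ : Field F) (_ : NumberField F) (_ : Algebra K F), TestField T p k K F ∧
      ¬ ModTwo U (E.map (algebraMap K F))

/-- A family of finite extensions of `K`, closed under isomorphisms and composita. -/
def IsFamily (𝓕 : Set (IntermediateField K (AlgebraicClosure K))) : Prop :=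
  (∀ F ∈ 𝓕, FiniteDimensional K F) ∧
  (∀ F ∈ 𝓕, ∀ F' : IntermediateField K (AlgebraicClosure K), Nonempty (F ≃ₐ[K] F') → F' ∈ 𝓕) ∧
  ∀ F ∈ 𝓕, ∀ F' ∈ 𝓕, F ⊔ F' ∈ 𝓕

/-- Part 4: families of fields. -/
def FamilyLaw (U : Set (Set ℂ)) (E : WeierstrassCurve K) : Prop :=
  ∀ 𝓕 : Set (IntermediateField K (AlgebraicClosure K)), IsFamily 𝓕 →
    (∀ F ∈ 𝓕, ∀ [NumberField F], ModTwo U (E.map (algebraMap K F))) →
    (∀ σ : Gal(AlgebraicClosure K/K), ∃ F ∈ 𝓕, Odd (fix K F σ)) →
    (Continues U E ∨
      ∀ (σ : Gal(AlgebraicClosure K/K)) (p : ℕ), p.Prime → ∃ F ∈ 𝓕, ¬ p ∣ fix K F σ) →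
    ModTwo U E

/-- Part 5: the intermediate fields of a Galois extension. -/
def GaloisLaw (U : Set (Set ℂ)) (E : WeierstrassCurve K) : Prop :=
  ∀ (L : Type) [Field L] [NumberField L] [Algebra K L] [IsGalois K L],
    (∀ (F : Type) [Field F] [NumberField F] [Algebra K F] [Algebra F L] [IsScalarTower K F L]
      (p : ℕ), p.Prime → IsHyper p (L ≃ₐ[F] L) → Continues U (E.map (algebraMap K F))) →
    (∀ (F : Type) [Field F] [NumberField F] [Algebra K F] [Algebra F L] [IsScalarTower K F L],
      IsHyper 2 (L ≃ₐ[F] L) → ModTwo U (E.map (algebraMap K F))) →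
    ∀ (F : Type) [Field F] [NumberField F] [Algebra K F] [Algebra F L] [IsScalarTower K F L],
      ModTwo U (E.map (algebraMap K F))

end laws

theorem fix_eq {K F : Type} [Field K] [NumberField K] [Field F] [NumberField F] [Algebra K F]
    (σ : Gal(AlgebraicClosure K/K)) : fix K F σ = Pool.Agent.W353.NF.fixn K F σ := by
  unfold fix Pool.Agent.W353.NF.fixn
  refine Nat.card_congr (Equiv.subtypeEquivRight fun i => ?_)
  rw [Pool.Agent.W353.NF.act_apply]
  constructor
  · intro h
    exact AlgHom.ext h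
  · intro h x
    exact DFunLike.congr_fun h x

theorem hasOrder_iff (U : Set (Set ℂ)) {F : Type} [Field F] [NumberField F]
    (V : HeightOneSpectrum (𝓞 F) → WeierstrassCurve (𝓞 F)) (r : ℤ) :
    HasOrder U V r ↔ Pool.Agent.Q5.BR.PowB U V 1 r := by
  unfold HasOrder Pool.Agent.Q5.BR.PowB
  simp only [zpow_one]

theorem modTwo_iff (U : Set (Set ℂ)) {F : Type} [Field F] [NumberField F]
    (E : WeierstrassCurve F) : ModTwo U E ↔ Pool.Agent.Q92.PA.TwoB U E 1 := by
  unfold ModTwo Pool.Agent.Q92.PA.TwoB
  simp only [hasOrder_iff, one_mul, even_iff_two_dvd]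
  rfl

theorem continues_iff {U : Set (Set ℂ)} (hU : IsDomains U) {F : Type} [Field F] [NumberField F]
    {E : WeierstrassCurve F} (hE : E.IsElliptic) :
    Continues U E ↔ Pool.Agent.Q92.PA.Cont U E := by
  constructor
  · intro h V hV
    obtain ⟨r, u, hu, f, h1, h2, -⟩ := h V hV
    exact ⟨u, hu, f, h1, h2⟩
  · intro h V hV
    obtain ⟨u, hu, f, h1, h2⟩ := h V hV
    obtain ⟨r, -, hr⟩ := Pool.Agent.Q92.PA.powB_of_cont hU hE hV hu h1 h2
    exact ⟨r, (hasOrder_iff U V r).2 hr⟩

theorem not_two_dvd {m : ℕ} (h : Odd m) : ¬ (2 : ℤ) ∣ (m : ℤ) := by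
  intro h2
  have h3 : 2 ∣ m := by exact_mod_cast h2
  exact (Nat.not_even_iff_odd.2 h) (even_iff_two_dvd.2 h3)

theorem part2 {U : Set (Set ℂ)} (hU : IsDomains U) {K : Type} [Field K] [NumberField K]
    {E : WeierstrassCurve K} (hE : E.IsElliptic) : DegreeLaw U E := by
  have hU' : Pool.Agent.Q5.BR.IsDomains U := hU
  refine ⟨?_, ?_⟩
  · intro M h F _ _ _ hM hc
    have hEF : (E.map (algebraMap K F)).IsElliptic := inferInstance
    rw [modTwo_iff]
    rw [continues_iff hU hEF] at hc
    have h1 := Pool.Agent.Q5.VL.gen_power_law' (Pool.Agent.Q92.PA.two_law hU' hE) (M := M)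
      (fun F' _ _ _ hd => (modTwo_iff U _).1 (h F' hd)) F
    exact Pool.Agent.Q92.PA.twoB_one_of_odd hU' (not_two_dvd hM) h1 hc
  · intro D hD h F _ _ _
    rw [modTwo_iff]
    exact Pool.Agent.Q5.VL.gen_sparse_law (Pool.Agent.Q92.PA.two_law hU' hE) hD.1 hD.2
      (fun F' _ _ _ hd => (modTwo_iff U _).1 (h F' hd)) F

theorem part3 {U : Set (Set ℂ)} (hU : IsDomains U) {K : Type} [Field K] [NumberField K]
    {E : WeierstrassCurve K} (hE : E.IsElliptic) : SpreadLaw U E := by
  have hU' : Pool.Agent.Q5.BR.IsDomains U := hU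
  have key : ∀ (p k : ℕ) (T : Set ℕ), p.Prime → (∀ l ∈ T, l.Prime) → T.Infinite →
      (∀ (F : Type) (_ : Field F) (_ : NumberField F) (_ : Algebra K F), TestField T p k K F →
        ModTwo U (E.map (algebraMap K F))) →
      Pool.Agent.Q92.PA.TwoB U E ((p ^ k : ℕ) : ℤ) := by
    intro p k T hp hT hinf h
    have hpf : Fact p.Prime := ⟨hp⟩
    have h1 := Pool.Agent.Q5.VL.gen_radical_law' (Pool.Agent.Q92.PA.two_law hU' hE) p hT hinf k
      (fun F _ _ _ hr hd => (modTwo_iff U _).1 (h F _ _ _ ⟨hr, hd⟩))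
    rw [Algebra.algebraMap_self, WeierstrassCurve.map_id] at h1
    exact h1
  have hodd : ∀ p k : ℕ, p.Prime → p ≠ 2 → Odd (p ^ k) := fun p k hp h2 =>
    (hp.odd_of_ne_two h2).pow
  intro hnot
  by_cases hc : Continues U E
  · refine ⟨0, fun p k T hp hp2 _ hT hinf => ?_⟩
    by_contra hcon
    push Not at hcon
    apply hnot
    rw [modTwo_iff]
    exact Pool.Agent.Q92.PA.twoB_one_of_odd hU' (not_two_dvd (hodd p k hp hp2))
      (key p k T hp hT hinf hcon) ((continues_iff hU hE).1 hc)
  · by_contra hcon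
    push Not at hcon
    obtain ⟨p, k, T, hp, hp2, -, hT, hinf, h⟩ := hcon 0
    obtain ⟨q, k', T', hq, hq2, hqp, hT', hinf', h'⟩ := hcon p
    have hqp' : q ≠ p := hqp.resolve_right hc
    have h1 := key p k T hp hT hinf h
    have h2 := key q k' T' hq hT' hinf' h'
    apply hnot
    rw [modTwo_iff]
    have hid : E.map (algebraMap K K) = E := by
      rw [Algebra.algebraMap_self, WeierstrassCurve.map_id]
    have h3 := Pool.Agent.Q5.VL.one_of_gcd (Pool.Agent.Q92.PA.two_law hU' hE) K
      (D := {p ^ k, q ^ k'}) (by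
        intro g hg
        have h4 := hg (p ^ k) (by simp)
        have h5 := hg (q ^ k') (by simp)
        have h6 : Nat.Coprime (p ^ k) (q ^ k') :=
          Nat.Coprime.pow _ _ ((Nat.coprime_primes hp hq).2 hqp'.symm)
        exact Nat.eq_one_of_dvd_coprimes h6 h4 h5) (by
        rintro d (rfl | rfl)
        · rw [hid]
          exact h1
        · rw [hid]
          exact h2)
    rw [hid] at h3
    exact h3

/-- **Descent for the Birch and Swinnerton-Dyer conjecture modulo 2.**  `U` is a family of domains.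
A. Let `E` be an elliptic curve over a number field `K`.
1. In every relation `∑ n_j · 1_{F_j} = m` between the permutation characters of finite extensions `F_j`
of `K`, the same relation holds for the differences of the order of `L(E/F, s)` at `s = 1` and the rank of
`E(F)`, if the `L`-functions have continuations.
2. If the conjecture modulo 2 holds for `E/F` for all `F/K` with `M ∣ [F:K]`, it holds for all `F/K` such
that `L(E/F, s)` has a continuation and `M / gcd(M, [F:K])` is odd (all `F`, if `M` is odd).  If it holds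
for all `F/K` of degree in a set `D` closed under multiples with greatest common divisor `1`, it holds
for all `F/K` (and continuations exist).
3. If it fails for `E/K`, then for all odd primes `p` with at most one exception, all `k` and all infinite
sets `T` of primes it fails for `E/F` for some test field `F`; no exception if `L(E/K, s)` has a
continuation.
4. Let `𝓕` be a family of finite extensions of `K`, closed under isomorphisms and composita, such that
every `σ` fixes an odd number of the embeddings of some `F ∈ 𝓕`.  If it holds for `E/F` for all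
`F ∈ 𝓕` and `L(E/K, s)` has a continuation, it holds for `E/K`; no assumption on the continuation
if for all `p` and `σ` some `F ∈ 𝓕` has a number of fixed embeddings prime to `p`.
5. Let `L/K` be a Galois extension.  If `L(E/F, s)` has a continuation for the intermediate fields `F` with
`Gal(L/F)` hyperelementary, and the conjecture holds for `E/F` for those with `Gal(L/F)`
2-hyperelementary, it holds for all intermediate fields.
B. Let `M` be odd.  If it holds for all elliptic curves over all number fields of degree divisible by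
`M`, it holds for all elliptic curves over number fields whose `L`-function has a continuation. -/
theorem result (U : Set (Set ℂ)) (hU : IsDomains U) :
    (∀ (K : Type) [Field K] [NumberField K] (E : WeierstrassCurve K), E.IsElliptic →
      RelationLaw U E ∧ DegreeLaw U E ∧ SpreadLaw U E ∧ FamilyLaw U E ∧ GaloisLaw U E) ∧
    (∀ M : ℕ, Odd M →
      (∀ (F : Type) [Field F] [NumberField F], M ∣ Module.finrank ℚ F →
        ∀ E : WeierstrassCurve F, E.IsElliptic → ModTwo U E) →
      ∀ (F : Type) [Field F] [NumberField F] (E : WeierstrassCurve F), E.IsElliptic →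
        Continues U E → ModTwo U E) := by
  have hU' : Pool.Agent.Q5.BR.IsDomains U := hU
  refine ⟨?_, ?_⟩
  swap
  · intro M hM h F _ _ E hE hc
    have h1 := (part2 hU hE).1 M (fun F' _ _ _ hd => h F' (by
      rw [← Module.finrank_mul_finrank ℚ F F']
      exact hd.mul_left _) _ inferInstance) F (by
      rw [Module.finrank_self, Nat.gcd_one_right, Nat.div_one]
      exact hM)
    rw [Algebra.algebraMap_self, WeierstrassCurve.map_id] at h1
    exact h1 hc
  intro K _ _ E hE
  refine ⟨?_, part2 hU hE, part3 hU hE, ?_, ?_⟩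
  · intro ι _ F _ _ _ n m h V₀ V hV₀ hV r₀ r hr₀ hr
    let Y : ι → Pool.Agent.Q5.BR.Ext K := fun j => @Pool.Agent.Q5.BR.Ext.mk K _ _ (F j) _ _ _
    exact Pool.Agent.Q92.PA.defect_rel (X := Y) (n := n) (m := m) hU' hE (fun τ => by
      rw [← h τ]
      refine Finset.sum_congr rfl fun j _ => ?_
      rw [fix_eq]) hV₀ hV ((hasOrder_iff U _ _).1 hr₀) fun j => (hasOrder_iff U _ _).1 (hr j)
  · rintro 𝓕 ⟨h1, h2, h3⟩ h5 h4 h6
    rw [modTwo_iff]
    rcases h6 with h6 | h6
    · obtain ⟨c, hc, h7⟩ := Pool.Agent.Q92.PA.two_family hU' hE (𝓕 := 𝓕) ⟨h1, h2, h3, fun σ => by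
        obtain ⟨F, hF, hodd⟩ := h4 σ
        have hfd := h1 F hF
        have hnf : NumberField F := NumberField.of_module_finite K F
        refine ⟨F, hF, ?_⟩
        rw [← fix_eq]
        exact fun h => Nat.not_even_iff_odd.2 hodd (even_iff_two_dvd.2 h)⟩
        (fun F hF _ => (modTwo_iff U _).1 (h5 F hF))
      exact Pool.Agent.Q92.PA.twoB_one_of_odd hU' hc h7 ((continues_iff hU hE).1 h6)
    · obtain ⟨ι, _, F, n, hFj, hrel⟩ := Pool.Agent.Q5.SO.exact_relation (𝓕 := 𝓕)
        ⟨h1, h2, h3, fun σ p hp => by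
          obtain ⟨F, hF, hfix⟩ := h6 σ p hp
          have hfd := h1 F hF
          have hnf : NumberField F := NumberField.of_module_finite K F
          refine ⟨F, hF, ?_⟩
          rw [← fix_eq]
          exact hfix⟩
      have hfd : ∀ j, FiniteDimensional K (F j) := fun j => h1 _ (hFj j)
      have hnf : ∀ j, NumberField (F j) := fun j => NumberField.of_module_finite K _
      let Y : ι → Pool.Agent.Q5.BR.Ext K := fun j =>
        @Pool.Agent.Q5.BR.Ext.mk K _ _ (F j) _ (hnf j) _
      have h7 := Pool.Agent.Q92.PA.twoB_rel (X := Y) hU' hE hrel 1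
        (fun j => (modTwo_iff U _).1 (h5 (F j) (hFj j)))
      rw [one_mul] at h7
      exact h7
  · intro L _ _ _ _ h1 h2 F _ _ _ _ _
    rw [modTwo_iff]
    refine Pool.Agent.Q92.PA.two_galois hU' hE L ?_ ?_ F
    · rintro F' _ _ _ _ _ ⟨p, hp, hH⟩
      have hEF : (E.map (algebraMap K F')).IsElliptic := inferInstance
      exact (continues_iff hU hEF).1 (h1 F' p hp hH)
    · intro F' _ _ _ _ _ hH
      exact (modTwo_iff U _).1 (h2 F' hH)

end Pool.Agent.Results.MP_413b36_nt.ModTwoDescent
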