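import Pool.Agent.Q198.CF.A3

/-!
# Elliptic curves over several multiquadratic fields: the good prime twists are independent coins

`E_D` is the quadratic twist by `D` of the modular curve `X_0(14)` (no complex multiplication). `Family` is
the class of discriminants of the starting theorem `MP_ae0bd0_nt.TwoConverseMultiquadratic`: squarefree, any sign,
`1` modulo `4`, a square modulo `7`, all prime factors split completely in `ℚ(√-1, √2, √-7)` or are inert in `ℚ(√2)`
and in `ℚ(√-7)`.  For `M ∈ Family` and a multiquadratic field `K = ℚ(√d_1, …, √d_n)` of degree `2 ^ n` with all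
`d_a ∈ Family`, the pair `(M, K)` is good if for all `T` the rational twist by the square class of `M ∏_{a ∈ T} d_a` has
finitely many rational points and `Ш[2] = 0`. For good pairs `E_M(K)` is finite, `L(E_M/K, s)` is entire and its order
of vanishing at `s = 1` is `0`: the conjecture of Birch and Swinnerton-Dyer holds for the ranks, in particular modulo `2`.

THEOREM.  Let `(M_1, K_1), …, (M_r, K_r)` be ANY such pairs for which the classes `M_i ∏_{a ∈ T} d_{i,a}`,
`i = 1, …, r`, are different modulo squares for different `i` (for two pairs: the square class of `M_1 M_2` does not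
become trivial in `K_1 K_2`).  No condition is put on the ranks, on the groups `Ш` or on the `L`-series
of the `E_(M_i)` over `K_i`, and the fields may be equal or different.  Twist all of them again and again by the same
split primes `p_1, p_2, …` and let `B_j` be the set of the indices `i` for which `(M_i p_1 ⋯ p_j, K_i)` is good. Up to
an error `C 2^ω ρ^k` in total variation, uniformly in the horizon `L`, the sets `B_(k+1), …, B_(k+L)` are `L` independent
random sets, each of which contains every `i` with probability `κ ^ [K_i : ℚ]`, independently, `κ = 0.419…`. Here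
`ρ < 1` and `C` depend only on the sum of the degrees `[K_i : ℚ]` and `ω` is the number of the prime factors of the `M_i`
and `d_{i,a}`. The mean exists over the boxes of all tuples of different split primes `p_j ≤ X` as `X → ∞`, and as the
iterated mean over `p_(k+L)`, …, at last over `p_1`, with the same value.

Inputs: the total variation theorem for rational twists (`Pool/Agent/Q1/PT`, hand-in `MP_696deb_nt.CoinFlipLaw`), the
field side of the starting theorem `MP_ae0bd0_nt.TwoConverseMultiquadratic`; new: the image process (`Q198/CF`).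
-/

set_option autoImplicit false

open NumberField IsDedekindDomain Finset Filter Topology

namespace Pool.Agent.Results.MP_413b36_nt.MultiquadraticCoins

/-- coefficients of the twist `E_D : y² = x³ + A D x + B D` of `X_0(14)` -/
def A (D : ℤ) : ℤ := 5805 * D ^ 2

/-- coefficients of the twist `E_D : y² = x³ + A D x + B D` of `X_0(14)` -/
def B (D : ℤ) : ℤ := -285714 * D ^ 3

/-- the curve `E_D` over `ℚ` -/
def E (D : ℤ) : WeierstrassCurve ℚ :=
  { a₁ := 0, a₂ := 0, a₃ := 0, a₄ := (A D : ℚ), a₆ := (B D : ℚ) }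

/-- `E_D(ℚ)` is finite and `Ш(E_D/ℚ)` has no element of order two -/
def RankZeroShaTwo (D : ℤ) : Prop :=
  Finite (E D).toAffine.Point ∧ ∀ x : Pool.Agent.TH841.SH.D.Sha (E D), 2 • x = 0 → x = 0

/-- primes which split completely in `ℚ(i, √2, √-7)` -/
def Split (p : ℕ) : Prop := p.Prime ∧ p % 8 = 1 ∧ (p % 7 = 1 ∨ p % 7 = 2 ∨ p % 7 = 4)

/-- primes inert in `ℚ(√2)` and in `ℚ(√-7)` -/
def Inert (q : ℕ) : Prop :=
  q.Prime ∧ (q % 8 = 3 ∨ q % 8 = 5) ∧ (q % 7 = 3 ∨ q % 7 = 5 ∨ q % 7 = 6)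

/-- the family of discriminants -/
def Family (D : ℤ) : Prop := Squarefree D ∧ D % 4 = 1 ∧ (D % 7 = 1 ∨ D % 7 = 2 ∨ D % 7 = 4) ∧
  ∀ p : ℕ, p.Prime → (p : ℤ) ∣ D → p ≠ 3 ∧ (Split p ∨ Inert p)

/-- the pair of `M` and `K = ℚ(√d_1, …, √d_n)` is good: `K` has degree `2ⁿ` and all numbers `M ∏_{a ∈ T} d_a`
are up to squares elements `D` of the family with `RankZeroShaTwo D` -/
def GoodPair {n : ℕ} (M : ℤ) (d : Fin n → ℤ) : Prop :=
  (∀ T : Finset (Fin n), T.Nonempty → ¬ IsSquare (∏ a ∈ T, d a)) ∧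
  ∀ T : Finset (Fin n), ∃ D k : ℤ, (Family D ∧ RankZeroShaTwo D) ∧ k ≠ 0 ∧ M * ∏ a ∈ T, d a = D * k ^ 2

/-- `K = ℚ(√d_1, …, √d_n)` -/
def IsMultiquadratic {n : ℕ} (d : Fin n → ℤ) (K : Type) [Field K] [NumberField K] : Prop :=
  ∃ x : Fin n → K, (∀ i, x i ^ 2 = (d i : K)) ∧ IntermediateField.adjoin ℚ (Set.range x) = ⊤

/-- the group `E_M(K)` -/
abbrev EK (K : Type) [Field K] (M : ℤ) : Type :=
  WeierstrassCurve.Affine.Point (WeierstrassCurve.toAffine
    ({ a₁ := 0, a₂ := 0, a₃ := 0, a₄ := (A M : K), a₆ := (B M : K) } : WeierstrassCurve K))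

/-- the number `q_v` of elements of the residue field of a finite place `v` of `K` -/
noncomputable def qv (K : Type) [Field K] (v : HeightOneSpectrum (𝓞 K)) : ℕ :=
  Nat.card (𝓞 K ⧸ v.asIdeal)

/-- `a_v = q_v + 1 - #E_M(k_v)`, that is `q_v` minus the number of affine points -/
noncomputable def av (K : Type) [Field K] (M : ℤ) (v : HeightOneSpectrum (𝓞 K)) : ℤ :=
  (qv K v : ℤ) - Nat.card {z : (𝓞 K ⧸ v.asIdeal) × (𝓞 K ⧸ v.asIdeal) //
    z.2 ^ 2 = z.1 ^ 3 + (A M : 𝓞 K ⧸ v.asIdeal) * z.1 + (B M : 𝓞 K ⧸ v.asIdeal)}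

open Classical in
/-- `F` is entire and is, for `Re s > 3/2`, the `L`-function of `E_M` over `K` without the Euler
factors at the places `v ∣ 42 M m` -/
def IsL (K : Type) [Field K] (M m : ℤ) (F : ℂ → ℂ) : Prop :=
  Differentiable ℂ F ∧ ∀ s : ℂ, (3 : ℝ) / 2 < s.re →
    HasProd (fun v : HeightOneSpectrum (𝓞 K) =>
      if ((42 * M * m : ℤ) : 𝓞 K) ∈ v.asIdeal then 1 else
        (1 - (av K M v : ℂ) * (qv K v : ℂ) ^ (-s) + (qv K v : ℂ) ^ (1 - 2 * s))⁻¹) (F s)

/-- the average of `g(p)` over the split primes `p` which do not divide `N` is `c` -/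
def Mean (N : ℕ) (g : ℕ → ℝ) (c : ℝ) : Prop :=
  Tendsto (fun X : ℕ => open Classical in
    (∑ p ∈ (range (X + 1)).filter fun p => Split p ∧ ¬ p ∣ N, g p) /
      (((range (X + 1)).filter fun p => Split p).card : ℝ)) atTop (𝓝 c)

/-- the iterated average of `F [p_1, …, p_K]` over the split primes `p_1 ∤ N`, `p_2 ∤ N p_1`, …,
`p_K ∤ N p_1 ⋯ p_(K-1)` is `c` (first over `p_K`, at last over `p_1`) -/
def IteratedMean : ℕ → ℕ → (List ℕ → ℝ) → ℝ → Prop
  | 0, _, F, c => c = F []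
  | K + 1, N, F, c => ∃ g : ℕ → ℝ,
      (∀ p : ℕ, Split p → ¬ p ∣ N → IteratedMean K (N * p) (fun l => F (p :: l)) (g p)) ∧ Mean N g c

open Classical in
/-- the `K`-tuples of split primes up to `X` -/
noncomputable def tuples (K X : ℕ) : Finset (Fin K → ℕ) :=
  Fintype.piFinset fun _ : Fin K => (range (X + 1)).filter fun p => Split p

/-- the average of `F [p_1, …, p_K]` over the `K`-tuples of different split primes `p_i ≤ X`, `p_i ∤ N`, tends
to `c` as `X → ∞` -/
def BoxMean (K N : ℕ) (F : List ℕ → ℝ) (c : ℝ) : Prop :=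
  Tendsto (fun X : ℕ => open Classical in
    (∑ p ∈ (tuples K X).filter fun p => Function.Injective p ∧ ∀ i, ¬ p i ∣ N, F (List.ofFn p)) /
      ((tuples K X).card : ℝ)) atTop (𝓝 c)

open Classical in
/-- the set of the indices `i` for which the pair of `M_i ∏ l` and `K_i` is good -/
noncomputable def good {r : ℕ} {n : Fin r → ℕ} (M : Fin r → ℤ) (d : ∀ i, Fin (n i) → ℤ) (l : List ℕ) :
    Finset (Fin r) :=
  univ.filter fun i => GoodPair (M i * (l.prod : ℕ)) (d i)

/-- the sets `B_(k+1), …, B_K` of the good indices for `p_1 ⋯ p_(k+1)`, …, `p_1 ⋯ p_K`, where `l = [p_1, …, p_K]` -/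
noncomputable def outcomes {r : ℕ} {n : Fin r → ℕ} (M : Fin r → ℤ) (d : ∀ i, Fin (n i) → ℤ) (k : ℕ)
    (l : List ℕ) : List (Finset (Fin r)) :=
  ((List.range l.length).drop k).map fun j => good M d (l.take (j + 1))

/-- the product of the absolute values of all `M_i` and `d_{i,a}` -/
def modulus {r : ℕ} {n : Fin r → ℕ} (M : Fin r → ℤ) (d : ∀ i, Fin (n i) → ℤ) : ℕ :=
  ∏ i, (M i * ∏ a, d i a).natAbs

/-- the product `κ = (1 - 1/2)(1 - 1/8)(1 - 1/32)⋯` -/
noncomputable def κ : ℝ := ∏' i : ℕ, (1 - (1 / 2 : ℝ) ^ (2 * i + 1))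

/-- the mean of `F [B_1, …, B_L]` for independent random subsets `B_j` of `{1, …, r}` which contain every `i` with
probability `q i`, independently -/
noncomputable def coins {r : ℕ} (q : Fin r → ℝ) : ℕ → (List (Finset (Fin r)) → ℝ) → ℝ
  | 0, F => F []
  | L + 1, F => ∑ B : Finset (Fin r), (∏ i ∈ B, q i) * (∏ i ∈ Bᶜ, (1 - q i)) * coins q L fun l => F (B :: l)

theorem iter_iff (K : ℕ) : ∀ (N : ℕ) (F : List ℕ → ℝ) (c : ℝ),
    IteratedMean K N F c ↔ Q198.CF.IteratedMean K N F c := by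
  induction K with
  | zero =>
    intro N F c
    exact Iff.rfl
  | succ K ih =>
    intro N F c
    constructor
    · rintro ⟨g, h1, h2⟩
      exact ⟨g, fun p hp hN => (ih _ _ _).1 (h1 p hp hN), h2⟩
    · rintro ⟨g, h1, h2⟩
      exact ⟨g, fun p hp hN => (ih _ _ _).2 (h1 p hp hN), h2⟩

theorem coins_eq {r : ℕ} (q : Fin r → ℝ) (L : ℕ) : ∀ F : List (Finset (Fin r)) → ℝ,
    coins q L F = Q198.CF.iq q L F := by
  induction L with
  | zero =>
    intro F
    rfl
  | succ L ih =>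
    intro F
    rw [Q198.CF.iq_succ, coins]
    refine Finset.sum_congr rfl fun A _ => ?_
    rw [ih]
    rfl

/-- the field side -/
theorem field {n : ℕ} {M : ℤ} {d : Fin n → ℤ} (hd : GoodPair M d) (K : Type) [Field K] [NumberField K]
    (hK : IsMultiquadratic d K) :
    Module.finrank ℚ K = 2 ^ n ∧ Finite (EK K M) ∧ (∃ F : ℂ → ℂ, IsL K M (∏ i, d i) F) ∧
      ∀ F : ℂ → ℂ, IsL K M (∏ i, d i) F → F 1 ≠ 0 := by
  classical
  have hG : ∀ D : ℤ, (Family D ∧ RankZeroShaTwo D) ↔ (Y687.MQ.AdmD D ∧ (Y687.MQ.matD D).det ≠ 0) :=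
    fun D => and_congr_right fun h => Q198.CF.rank_iff h
  have hT : Y687.MQ.Ind d ∧ Y687.MQ.AdT Y687.MQ.ClG M d := by
    refine ⟨hd.1, fun T => ?_⟩
    obtain ⟨D, k, h1, hk, he⟩ := hd.2 T
    obtain ⟨P, T', h2, rfl⟩ := Y687.MQ.good_iff.1 ((hG D).1 h1)
    exact ⟨P, T', k, h2, hk, he⟩
  obtain ⟨x, hx, hK⟩ := hK
  obtain ⟨hind, h⟩ := hT
  obtain ⟨⟨F, hF, hF1⟩, hfin⟩ := Y687.MQ.field_thm (fun P T => Y687.MQ.WB_all) h hind K x hx hK
  have hL : ∀ G : ℂ → ℂ, IsL K M (∏ i, d i) G ↔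
      Y19.QT.IsLFunK K (A M) (B M) (∏ i, d i) G := by
    intro G
    have key : ∀ v : HeightOneSpectrum (𝓞 K),
        (((42 * M * ∏ i, d i : ℤ) : 𝓞 K) ∈ v.asIdeal ↔
          ((2 * (4 * A M ^ 3 + 27 * B M ^ 2) * ∏ i, d i : ℤ) : 𝓞 K) ∈ v.asIdeal) := by
      intro v
      have := v.isPrime
      constructor
      · intro h1
        have e : ((2 * (4 * A M ^ 3 + 27 * B M ^ 2) * ∏ i, d i : ℤ) : 𝓞 K) =
            ((2 ^ 14 * 3 ^ 11 * 7 ^ 2 * M ^ 5 : ℤ) : 𝓞 K) *
              ((42 * M * ∏ i, d i : ℤ) : 𝓞 K) := by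
          rw [← Int.cast_mul]
          congr 1
          unfold A B
          ring
        rw [e]
        exact Ideal.mul_mem_left _ _ h1
      · intro h1
        refine Ideal.IsPrime.mem_of_pow_mem this 15 ?_
        have e : ((42 * M * ∏ i, d i : ℤ) : 𝓞 K) ^ 15 =
            ((3 ^ 3 * 7 ^ 12 * M ^ 9 * (∏ i, d i) ^ 14 : ℤ) : 𝓞 K) *
              ((2 * (4 * A M ^ 3 + 27 * B M ^ 2) * ∏ i, d i : ℤ) : 𝓞 K) := by
          rw [← Int.cast_mul, ← Int.cast_pow]
          congr 1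
          unfold A B
          ring
        rw [e]
        exact Ideal.mul_mem_left _ _ h1
    unfold IsL Y19.QT.IsLFunK
    simp only [key]
    rfl
  refine ⟨?_, hfin, ⟨F, (hL F).2 hF⟩, fun G hG => ?_⟩
  · have := Y73.QMQ1.gal_of hx hK
    rw [← IsGalois.card_aut_eq_finrank]
    exact Y73.QMQ1.card_gal hind hx hK
  · rw [Y687.MQ.isLFunK_unique ((hL G).1 hG) hF]
    exact hF1

open Classical in
/-- the order of vanishing and the rank -/
theorem field' {n : ℕ} {M : ℤ} {d : Fin n → ℤ} (hd : GoodPair M d) (K : Type) [Field K] [NumberField K]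
    (hK : IsMultiquadratic d K) :
    Module.finrank ℚ K = 2 ^ n ∧ Finite (EK K M) ∧ (∃ F : ℂ → ℂ, IsL K M (∏ i, d i) F) ∧
      ∀ F : ℂ → ℂ, IsL K M (∏ i, d i) F →
        analyticOrderAt F 1 = (Module.finrank ℤ (EK K M) : ℕ) ∧ Module.finrank ℤ (EK K M) = 0 := by
  obtain ⟨h1, h2, h3, h4⟩ := field hd K hK
  have h5 : Module.finrank ℤ (EK K M) = 0 := by
    refine Module.finrank_eq_zero_of_rank_eq_zero ?_
    rw [rank_eq_zero_iff]
    intro x
    refine ⟨(addOrderOf x : ℤ), ?_, ?_⟩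
    · exact_mod_cast (addOrderOf_pos x).ne'
    · rw [natCast_zsmul]
      exact addOrderOf_nsmul_eq_zero x
  refine ⟨h1, h2, h3, fun F hF => ⟨?_, h5⟩⟩
  rw [h5, Nat.cast_zero]
  exact (Differentiable.analyticAt hF.1 1).analyticOrderAt_eq_zero.2 (h4 F hF)

open Classical in
/-- **The theorem.** -/
theorem result (m : ℕ) : ∃ C ρ : ℝ, 0 < ρ ∧ ρ < 1 ∧
    (∀ (r : ℕ) (n : Fin r → ℕ) (M : Fin r → ℤ) (d : ∀ i, Fin (n i) → ℤ), ∑ i, 2 ^ n i = m →
      (∀ i, Family (M i)) → (∀ i a, Family (d i a)) →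
      (∀ i (T : Finset (Fin (n i))), T.Nonempty → ¬ IsSquare (∏ a ∈ T, d i a)) →
      (∀ i i', i ≠ i' → ∀ (T : Finset (Fin (n i))) (T' : Finset (Fin (n i'))),
        ¬ IsSquare ((M i * ∏ a ∈ T, d i a) * (M i' * ∏ a ∈ T', d i' a))) →
      ∀ (k L : ℕ) (F : List (Finset (Fin r)) → ℝ), (∀ l, |F l| ≤ 1) → ∃ c : ℝ,
        BoxMean (k + L) (modulus M d) (fun l => F (outcomes M d k l)) c ∧
        (∀ x : ℝ, IteratedMean (k + L) (modulus M d) (fun l => F (outcomes M d k l)) x ↔ x = c) ∧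
        |c - coins (fun i => κ ^ 2 ^ n i) L F| ≤ C * 2 ^ (modulus M d).primeFactors.card * ρ ^ k) ∧
    ∀ (n : ℕ) (M : ℤ) (d : Fin n → ℤ), GoodPair M d → ∀ (K : Type) [Field K] [NumberField K],
      IsMultiquadratic d K →
      Module.finrank ℚ K = 2 ^ n ∧ Finite (EK K M) ∧ (∃ F : ℂ → ℂ, IsL K M (∏ i, d i) F) ∧
      ∀ F : ℂ → ℂ, IsL K M (∏ i, d i) F →
        analyticOrderAt F 1 = (Module.finrank ℤ (EK K M) : ℕ) ∧ Module.finrank ℤ (EK K M) = 0 := by
  obtain ⟨C, ρ, hC, h0, h1, hmain⟩ := Q198.CF.main m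
  refine ⟨C, ρ, h0, h1, ?_, fun n M d hd K _ _ hK => field' hd K hK⟩
  intro r n M d hm hM hd hI hx k L F hF
  have hU : ∀ i, ∃ U : Finset (Fin (n i)) → Finset ℕ, Function.Injective U ∧ ∀ T,
      Y687.JQ.CL (U T) ∧ ∃ k : ℤ, k ≠ 0 ∧ M i * ∏ a ∈ T, d i a = Y687.DD (U T) * k ^ 2 := by
    intro i
    refine Y687.JQ.exists_U' (hI i) (fun a => ⟨d i a, 1, hd i a, one_ne_zero, by ring⟩)
      ⟨M i, 1, hM i, one_ne_zero, by ring⟩
  choose U hUinj hU using hU
  have hM0 : ∀ i, M i ≠ 0 := fun i => (hM i).1.ne_zero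
  have hd0 : ∀ i a, d i a ≠ 0 := fun i a => (hd i a).1.ne_zero
  have hp0 : ∀ i, M i * ∏ a, d i a ≠ 0 := fun i =>
    mul_ne_zero (hM0 i) (Finset.prod_ne_zero_iff.2 fun a _ => hd0 i a)
  have hN : modulus M d ≠ 0 := Finset.prod_ne_zero_iff.2 fun i _ => Int.natAbs_ne_zero.2 (hp0 i)
  have g1 : ∀ p ∈ (modulus M d).primeFactors, p ≠ 2 ∧ p ≠ 7 := by
    intro p hp
    have h2 := Nat.prime_of_mem_primeFactors hp
    obtain ⟨i, -, hi⟩ := (Nat.Prime.prime h2).exists_mem_finset_dvd (Nat.dvd_of_mem_primeFactors hp)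
    have h3 : (p : ℤ) ∣ M i * ∏ a, d i a := Int.natCast_dvd.2 hi
    have h4 : ∃ D : ℤ, Family D ∧ (p : ℤ) ∣ D := by
      rcases (Nat.prime_iff_prime_int.1 h2).dvd_or_dvd h3 with h5 | h5
      · exact ⟨M i, hM i, h5⟩
      · obtain ⟨a, -, ha⟩ := (Nat.prime_iff_prime_int.1 h2).exists_mem_finset_dvd h5
        exact ⟨d i a, hd i a, ha⟩
    obtain ⟨D, hD, hpD⟩ := h4
    constructor
    · rintro rfl
      have h5 := hD.2.1
      have h6 : (2 : ℤ) ∣ D := hpD
      omega
    · rintro rfl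
      have h5 := hD.2.2.1
      have h6 : (7 : ℤ) ∣ D := hpD
      omega
  have g2 : ∀ x : (Σ i, Finset (Fin (n i))),
      (Y687.DD (U x.1 x.2)).natAbs.primeFactors ⊆ (modulus M d).primeFactors := by
    rintro ⟨i, T⟩
    obtain ⟨hc, k, hk, he⟩ := hU i T
    refine Nat.primeFactors_mono ?_ hN
    refine Dvd.dvd.trans ?_ (Finset.dvd_prod_of_mem _ (Finset.mem_univ i))
    rw [Int.natAbs_dvd_natAbs]
    refine Dvd.dvd.trans ?_ (mul_dvd_mul_left (M i) (Finset.prod_dvd_prod_of_subset T univ _ (Finset.subset_univ T)))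
    rw [he]
    exact Dvd.intro _ rfl
  have g3 : ∀ l : List ℕ, Q198.CF.AdmL (modulus M d) l → ∀ i : Fin r, i ∈ good M d l ↔
      ∀ x : (Σ i, Finset (Fin (n i))), x.1 = i → RankZeroShaTwo (Y687.DD (U x.1 x.2) * (l.prod : ℕ)) := by
    intro l hl i
    have hfam : ∀ T : Finset (Fin (n i)), Family (Y687.DD (U i T) * (l.prod : ℕ)) := by
      intro T
      refine Q198.CF.family_list l (hU i T).1.adm ?_ hN hl
      obtain ⟨hc, k, hk, he⟩ := hU i T
      refine Nat.primeFactors_mono ?_ hN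
      refine Dvd.dvd.trans ?_ (Finset.dvd_prod_of_mem _ (Finset.mem_univ i))
      rw [Int.natAbs_dvd_natAbs]
      refine Dvd.dvd.trans ?_ (mul_dvd_mul_left (M i) (Finset.prod_dvd_prod_of_subset T univ _ (Finset.subset_univ T)))
      rw [he]
      exact Dvd.intro _ rfl
    rw [show i ∈ good M d l ↔ GoodPair (M i * (l.prod : ℕ)) (d i) from
      ⟨fun h => (Finset.mem_filter.1 h).2, fun h => Finset.mem_filter.2 ⟨mem_univ _, h⟩⟩]
    constructor
    · rintro hg ⟨i', T⟩ rfl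
      obtain ⟨D, k', ⟨hD, hR⟩, hk', he'⟩ := hg.2 T
      obtain ⟨hc, k, hk, he⟩ := hU i' T
      have h5 : Y687.DD (U i' T) * (l.prod : ℕ) * k ^ 2 = D * k' ^ 2 := by
        rw [← he']
        linear_combination (-(l.prod : ℤ)) * he
      have h6 := Y687.JQ.sqf_unique (hfam T).1 hD.1 hk hk' h5
      show RankZeroShaTwo (Y687.DD (U i' T) * (l.prod : ℕ))
      rw [h6]
      exact hR
    · intro h
      refine ⟨hI i, fun T => ?_⟩
      obtain ⟨hc, k, hk, he⟩ := hU i T
      refine ⟨Y687.DD (U i T) * (l.prod : ℕ), k, ⟨hfam T, h ⟨i, T⟩ rfl⟩, hk, ?_⟩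
      linear_combination (l.prod : ℤ) * he
  have g4 : ∀ i : Fin r, κ ^ 2 ^ n i = Q198.CF.κ ^ Nat.card {j : (Σ i, Finset (Fin (n i))) // j.1 = i} := by
    intro i
    have e : {j : (Σ i, Finset (Fin (n i))) // j.1 = i} ≃ Finset (Fin (n i)) :=
      { toFun := fun j => j.2 ▸ j.1.2
        invFun := fun T => ⟨⟨i, T⟩, rfl⟩
        left_inv := by
          rintro ⟨⟨i', T⟩, rfl⟩
          rfl
        right_inv := fun T => rfl }
    rw [Nat.card_congr e, Nat.card_eq_fintype_card, Fintype.card_finset, Fintype.card_fin]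
    rfl
  obtain ⟨c, hc1, hc2⟩ := hmain (Fin r) (Σ i, Finset (Fin (n i))) (by
      rw [Fintype.card_sigma, ← hm]
      refine Finset.sum_congr rfl fun i _ => ?_
      rw [Fintype.card_finset, Fintype.card_fin]) (fun x => x.1)
    (fun x => Y687.DD (U x.1 x.2)) (fun x => (hU x.1 x.2).1.adm) (by
      rintro ⟨i, T⟩ ⟨i', T'⟩ h
      have h' : Y687.DD (U i T) = Y687.DD (U i' T') := h
      obtain ⟨hc, k, hk, he⟩ := hU i T
      obtain ⟨hc', k', hk', he'⟩ := hU i' T'
      by_cases hii : i = i'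
      · subst hii
        have h2 : U i T = U i T' := by
          rw [← hc.natAbs, ← hc'.natAbs, h']
        rw [hUinj i h2]
      · exfalso
        refine hx i i' hii T T' ⟨Y687.DD (U i T) * k * k', ?_⟩
        rw [he, he', ← h']
        ring) (modulus M d) hN g1 g2 (good M d) g3 (fun i => κ ^ 2 ^ n i) g4 k L F hF
  refine ⟨c, hc1.1, fun x => ?_, ?_⟩
  · rw [iter_iff]
    exact hc1.2 x
  · rw [coins_eq]
    exact hc2

end Pool.Agent.Results.MP_413b36_nt.MultiquadraticCoins
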