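import Pool.Agent.Q92.PA.Mod3
import Pool.Agent.Q5.RX.Deg

/-!
# The Birch and Swinnerton-Dyer conjecture modulo 2: number fields without automorphisms

`E` is an elliptic curve over a number field `K`, and `F` runs through finite extensions of `K`.  The
minimal models `V` and the Euler product `LSeries V s` with the correct factors at all primes are those of
`Pool.Agent.TH322.BC.Defs`.
-/

set_option autoImplicit false

namespace Pool.Agent.Results.MP_413b36_nt.RigidFields

open NumberField IsDedekindDomain
open Pool.Agent.TH322.BC.Edge (MinimalModels)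

/-- The identity is the only automorphism of the field `F`. -/
def NoAutomorphisms (F : Type) [Field F] : Prop :=
  ∀ (τ : F ≃+* F) (x : F), τ x = x

/-- The rank of the group `E(F)`. -/
noncomputable def rank {F : Type} [Field F] (E : WeierstrassCurve F) : ℕ := by
  classical
  exact Module.finrank ℤ E.toAffine.Point

/-- The domains on which the `L`-functions are considered: a nonempty family of connected open sets which
contain the half plane `Re s > 3/2` and the point `1`, closed under intersections.  For example
`U = {ℂ}`, or the half planes `Re s > σ` with `σ < 1`. -/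
def IsDomains (U : Set (Set ℂ)) : Prop :=
  U.Nonempty ∧ (∀ u ∈ U, IsOpen u ∧ IsPreconnected u ∧ (1 : ℂ) ∈ u ∧ ∀ s : ℂ, 3 / 2 < s.re → s ∈ u) ∧
    ∀ u ∈ U, ∀ u' ∈ U, u ∩ u' ∈ U

/-- The Euler product has a meromorphic continuation to a domain in `U`, of order `r` at `s = 1`. -/
def HasOrder (U : Set (Set ℂ)) {F : Type} [Field F] [NumberField F]
    (V : HeightOneSpectrum (𝓞 F) → WeierstrassCurve (𝓞 F)) (r : ℤ) : Prop :=
  ∃ u ∈ U, ∃ f : ℂ → ℂ, MeromorphicOn f u ∧
    (∀ s : ℂ, 3 / 2 < s.re → f s = Pool.Agent.TH322.BC.Edge.LSeries V s) ∧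
    meromorphicOrderAt f 1 = (r : WithTop ℤ)

/-- `L(E/F, s)` has a meromorphic continuation to a domain in `U`. -/
def Continues (U : Set (Set ℂ)) {F : Type} [Field F] [NumberField F] (E : WeierstrassCurve F) :
    Prop :=
  ∀ V : HeightOneSpectrum (𝓞 F) → WeierstrassCurve (𝓞 F), MinimalModels E V →
    ∃ r : ℤ, HasOrder U V r

/-- The conjecture modulo 2 for `E/F`: `L(E/F, s)` has a meromorphic continuation to a domain in `U`,
and its order at `s = 1` is congruent to the rank of `E(F)` modulo 2. -/
def ModTwo (U : Set (Set ℂ)) {F : Type} [Field F] [NumberField F] (E : WeierstrassCurve F) :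
    Prop :=
  ∀ V : HeightOneSpectrum (𝓞 F) → WeierstrassCurve (𝓞 F), MinimalModels E V →
    ∃ r : ℤ, HasOrder U V r ∧ Even (r - rank E)

/-- The number of the embeddings of `F` in the algebraic closure of `K` that are fixed by `σ`. -/
noncomputable def fix (K F : Type) [Field K] [Field F] [Algebra K F]
    (σ : Gal(AlgebraicClosure K/K)) : ℕ :=
  Nat.card {i : F →ₐ[K] AlgebraicClosure K // ∀ x, σ (i x) = i x}

/-- A set of positive integers closed under multiples, with greatest common divisor `1`. -/
def IsSparse (D : Set ℕ) : Prop :=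
  (∀ d ∈ D, ∀ n : ℕ, 0 < n → d * n ∈ D) ∧ ∀ g : ℕ, (∀ d ∈ D, g ∣ d) → g = 1

/-- A class of degrees: a set of positive integers such that `d * p` belongs to it with `d`, for all
prime numbers `p` above some bound.  For example the odd numbers, the numbers exactly divisible by
`2 ^ a`, the numbers prime to a given one. -/
def IsClass (D : Set ℕ) : Prop :=
  ∃ p₀ : ℕ, ∀ d ∈ D, ∀ p : ℕ, p.Prime → p₀ < p → d * p ∈ D

section laws
variable {K : Type} [Field K] [NumberField K]

/-- Part 0 (unconditional): for every prime number `p > [K : ℚ] + 1` the constant `p` is an integral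
combination of the permutation characters of extensions of `K` without automorphisms, of degree `p` or
`p ^ 2`, and the same relation holds between the differences order minus rank. -/
def Relation (U : Set (Set ℂ)) (E : WeierstrassCurve K) : Prop :=
  ∀ p : ℕ, p.Prime → Module.finrank ℚ K + 1 < p →
    ∃ (ι : Type) (_ : Fintype ι) (X : ι → Type) (_ : ∀ j, Field (X j)) (_ : ∀ j, NumberField (X j))
      (_ : ∀ j, Algebra K (X j)) (n : ι → ℤ),
      (∀ j, NoAutomorphisms (X j) ∧
        (Module.finrank K (X j) = p ∨ Module.finrank K (X j) = p ^ 2)) ∧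
      (∀ σ : Gal(AlgebraicClosure K/K), ∑ j, n j * (fix K (X j) σ : ℤ) = p) ∧
      ∀ (V₀ : HeightOneSpectrum (𝓞 K) → WeierstrassCurve (𝓞 K))
        (V : ∀ j, HeightOneSpectrum (𝓞 (X j)) → WeierstrassCurve (𝓞 (X j))), MinimalModels E V₀ →
        (∀ j, MinimalModels (E.map (algebraMap K (X j))) (V j)) →
        ∀ (r₀ : ℤ) (r : ι → ℤ), HasOrder U V₀ r₀ → (∀ j, HasOrder U (V j) (r j)) →
          ∑ j, n j * (r j - rank (E.map (algebraMap K (X j)))) = p * (r₀ - rank E)

/-- Part 1: if the conjecture modulo 2 fails for `E/K`, then for every prime number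
`p > [K : ℚ] + 1` with at most one exception it fails for `E/X` for some `X` without automorphisms, of
degree `p` or `p ^ 2` over `K`; there is no exception if `L(E/K, s)` has a continuation. -/
def Spread (U : Set (Set ℂ)) (E : WeierstrassCurve K) : Prop :=
  ¬ ModTwo U E → ∃ p₀ : ℕ, ∀ p : ℕ, p.Prime → Module.finrank ℚ K + 1 < p →
    (p ≠ p₀ ∨ Continues U E) →
    ∃ (X : Type) (_ : Field X) (_ : NumberField X) (_ : Algebra K X), NoAutomorphisms X ∧
      (Module.finrank K X = p ∨ Module.finrank K X = p ^ 2) ∧
      ¬ ModTwo U (E.map (algebraMap K X))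

/-- Part 2: in every class of degrees the fields without automorphisms suffice. -/
def ClassLaw (U : Set (Set ℂ)) (E : WeierstrassCurve K) : Prop :=
  ∀ D : Set ℕ, IsClass D →
    (∀ (X : Type) [Field X] [NumberField X] [Algebra K X], NoAutomorphisms X →
      Module.finrank K X ∈ D → ModTwo U (E.map (algebraMap K X))) →
    ∀ (F : Type) [Field F] [NumberField F] [Algebra K F], Module.finrank K F ∈ D →
      ModTwo U (E.map (algebraMap K F))

/-- Part 3: the degrees of the fields without automorphisms may in addition be restricted to a sparse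
set, or to the multiples of a number `M`. -/
def DegreeLaw (U : Set (Set ℂ)) (E : WeierstrassCurve K) : Prop :=
  (∀ D : Set ℕ, IsSparse D →
    (∀ (X : Type) [Field X] [NumberField X] [Algebra K X], NoAutomorphisms X →
      Module.finrank K X ∈ D → ModTwo U (E.map (algebraMap K X))) →
    ∀ (F : Type) [Field F] [NumberField F] [Algebra K F], ModTwo U (E.map (algebraMap K F))) ∧
  ∀ M : ℕ, (∀ (X : Type) [Field X] [NumberField X] [Algebra K X], NoAutomorphisms X →
      M ∣ Module.finrank K X → ModTwo U (E.map (algebraMap K X))) →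
    ∀ (F : Type) [Field F] [NumberField F] [Algebra K F],
      Odd (M / M.gcd (Module.finrank K F)) → Continues U (E.map (algebraMap K F)) →
      ModTwo U (E.map (algebraMap K F))

/-- A family of finite extensions of `K` inside the algebraic closure, closed under isomorphisms and
under passing to larger finite extensions. -/
def IsUpwardClosed (𝓕 : Set (IntermediateField K (AlgebraicClosure K))) : Prop :=
  (∀ F ∈ 𝓕, FiniteDimensional K F) ∧
  (∀ F ∈ 𝓕, ∀ F' : IntermediateField K (AlgebraicClosure K), Nonempty (F ≃ₐ[K] F') → F' ∈ 𝓕) ∧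
  ∀ F ∈ 𝓕, ∀ F' : IntermediateField K (AlgebraicClosure K), FiniteDimensional K F' → F ≤ F' → F' ∈ 𝓕

/-- Part 4: families of fields. -/
def FamilyLaw (U : Set (Set ℂ)) (E : WeierstrassCurve K) : Prop :=
  ∀ 𝓕 : Set (IntermediateField K (AlgebraicClosure K)), IsUpwardClosed 𝓕 →
    (∀ σ : Gal(AlgebraicClosure K/K), ∃ F ∈ 𝓕, Odd (fix K F σ)) →
    (∀ F ∈ 𝓕, NoAutomorphisms F → ∀ [NumberField F], ModTwo U (E.map (algebraMap K F))) →
    Continues U E → ModTwo U E

end laws

theorem fix_eq {K F : Type} [Field K] [NumberField K] [Field F] [NumberField F] [Algebra K F]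
    (σ : Gal(AlgebraicClosure K/K)) : fix K F σ = Pool.Agent.W353.NF.fixn K F σ := by
  unfold fix Pool.Agent.W353.NF.fixn
  refine Nat.card_congr (Equiv.subtypeEquivRight fun i => ?_)
  rw [Pool.Agent.W353.NF.act_apply]
  constructor
  · intro h
    exact AlgHom.ext h
  · intro h x
    exact DFunLike.congr_fun h x

theorem hasOrder_iff (U : Set (Set ℂ)) {F : Type} [Field F] [NumberField F]
    (V : HeightOneSpectrum (𝓞 F) → WeierstrassCurve (𝓞 F)) (r : ℤ) :
    HasOrder U V r ↔ Pool.Agent.Q5.BR.PowB U V 1 r := by
  unfold HasOrder Pool.Agent.Q5.BR.PowB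
  simp only [zpow_one]

theorem modTwo_iff (U : Set (Set ℂ)) {F : Type} [Field F] [NumberField F]
    (E : WeierstrassCurve F) : ModTwo U E ↔ Pool.Agent.Q92.PA.TwoB U E 1 := by
  unfold ModTwo Pool.Agent.Q92.PA.TwoB
  simp only [hasOrder_iff, one_mul, even_iff_two_dvd]
  rfl

theorem continues_iff {U : Set (Set ℂ)} (hU : IsDomains U) {F : Type} [Field F] [NumberField F]
    {E : WeierstrassCurve F} (hE : E.IsElliptic) :
    Continues U E ↔ Pool.Agent.Q92.PA.Cont U E := by
  constructor
  · intro h V hV
    obtain ⟨r, u, hu, f, h1, h2, -⟩ := h V hV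
    exact ⟨u, hu, f, h1, h2⟩
  · intro h V hV
    obtain ⟨u, hu, f, h1, h2⟩ := h V hV
    obtain ⟨r, -, hr⟩ := Pool.Agent.Q92.PA.powB_of_cont hU hE hV hu h1 h2
    exact ⟨r, (hasOrder_iff U V r).2 hr⟩

theorem not_two_dvd {m : ℕ} (h : Odd m) : ¬ (2 : ℤ) ∣ (m : ℤ) := by
  intro h2
  have h3 : 2 ∣ m := by exact_mod_cast h2
  exact (Nat.not_even_iff_odd.2 h) (even_iff_two_dvd.2 h3)

theorem part2 {U : Set (Set ℂ)} (hU : IsDomains U) {K : Type} [Field K] [NumberField K]
    {E : WeierstrassCurve K} (hE : E.IsElliptic) : ClassLaw U E := by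
  have hU' : Pool.Agent.Q5.BR.IsDomains U := hU
  rintro D ⟨p₀, hD⟩ h F _ _ _ hF
  rw [modTwo_iff]
  exact Pool.Agent.Q5.RX.rigid_degree_law (Pool.Agent.Q92.PA.two_law hU' hE) hD
    (fun X _ _ _ hr hd => (modTwo_iff U _).1 (h X hr hd)) F hF

theorem part3 {U : Set (Set ℂ)} (hU : IsDomains U) {K : Type} [Field K] [NumberField K]
    {E : WeierstrassCurve K} (hE : E.IsElliptic) : DegreeLaw U E := by
  have hU' : Pool.Agent.Q5.BR.IsDomains U := hU
  refine ⟨?_, ?_⟩
  · intro D hD h F _ _ _
    rw [modTwo_iff]
    exact Pool.Agent.Q5.RF.gen_rigid_law (Pool.Agent.Q92.PA.two_law hU' hE) hD.1 hD.2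
      (fun F' _ _ _ hr hd => (modTwo_iff U _).1 (h F' hr hd)) F
  · intro M h F _ _ _ hM hc
    have hEF : (E.map (algebraMap K F)).IsElliptic := inferInstance
    rw [modTwo_iff]
    rw [continues_iff hU hEF] at hc
    have h1 := Pool.Agent.Q5.RF.gen_rigid_power_law (Pool.Agent.Q92.PA.two_law hU' hE) (M := M)
      (fun F' _ _ _ hr hd => (modTwo_iff U _).1 (h F' hr hd)) F
    exact Pool.Agent.Q92.PA.twoB_one_of_odd hU' (not_two_dvd hM) h1 hc

theorem part1 {U : Set (Set ℂ)} (hU : IsDomains U) {K : Type} [Field K] [NumberField K]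
    {E : WeierstrassCurve K} (hE : E.IsElliptic) : Spread U E := by
  have hU' : Pool.Agent.Q5.BR.IsDomains U := hU
  have hid : E.map (algebraMap K K) = E := by
    rw [Algebra.algebraMap_self, WeierstrassCurve.map_id]
  have key : ∀ p : ℕ, p.Prime → Module.finrank ℚ K + 1 < p →
      (∀ (X : Type) (_ : Field X) (_ : NumberField X) (_ : Algebra K X), NoAutomorphisms X →
        (Module.finrank K X = p ∨ Module.finrank K X = p ^ 2) →
        ModTwo U (E.map (algebraMap K X))) →
      Pool.Agent.Q92.PA.TwoB U E (p : ℤ) := by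
    intro p hp hlt h
    have h1 := Pool.Agent.Q5.RX.prime_of_rigid (Pool.Agent.Q92.PA.two_law hU' hE) K hp hlt
      (fun X _ _ iKX iKX' hst hX hdeg => by
        have e : iKX' = iKX := Algebra.algebra_ext _ _ fun r =>
          ((@IsScalarTower.algebraMap_apply K K X _ _ _ _ iKX' iKX hst r)).symm
        subst e
        exact (modTwo_iff U _).1 (h X _ _ _ hX hdeg))
    rw [hid] at h1
    exact h1
  intro hnot
  by_cases hc : Continues U E
  · refine ⟨0, fun p hp hlt _ => ?_⟩
    by_contra hcon
    push Not at hcon
    apply hnot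
    rw [modTwo_iff]
    have hp2 : p ≠ 2 := by
      have : 0 < Module.finrank ℚ K := Module.finrank_pos
      omega
    exact Pool.Agent.Q92.PA.twoB_one_of_odd hU' (not_two_dvd (hp.odd_of_ne_two hp2))
      (key p hp hlt hcon) ((continues_iff hU hE).1 hc)
  · by_contra hcon
    push Not at hcon
    obtain ⟨p, hp, hlt, -, h⟩ := hcon 0
    obtain ⟨q, hq, hlt', hqp, h'⟩ := hcon p
    have hqp' : q ≠ p := hqp.resolve_right hc
    have h1 := key p hp hlt h
    have h2 := key q hq hlt' h'
    apply hnot
    rw [modTwo_iff]
    have h3 := Pool.Agent.Q5.RX.one_of_two_primes (Pool.Agent.Q92.PA.two_law hU' hE) K hp hq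
      hqp'.symm (by
        rw [hid]
        exact h1) (by
        rw [hid]
        exact h2)
    rw [hid] at h3
    exact h3

/-- **The Birch and Swinnerton-Dyer conjecture modulo 2: the number fields without automorphisms
suffice.**  `U` is a family of domains.
A. Let `E` be an elliptic curve over a number field `K`.
0. (Unconditional.) For every prime number `p > [K : ℚ] + 1` there are extensions `X_j/K` without
automorphisms, of degree `p` or `p ^ 2`, and integers `n_j` such that `∑ n_j · 1_{X_j} = p`, and the same
relation holds for the differences of the order of `L(E/X, s)` at `s = 1` and the rank of `E(X)`, if the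
`L`-functions have continuations.
1. If the conjecture modulo 2 fails for `E/K`, then for all prime numbers `p > [K : ℚ] + 1` with at most
one exception it fails for `E/X` for some `X` without automorphisms, `[X : K]` equal to `p` or `p ^ 2`;
no exception if `L(E/K, s)` has a continuation.
2. Let `D` be closed under multiplication by the large prime numbers.  If it holds for `E/X` for all `X/K`
without automorphisms with `[X : K] ∈ D`, it holds for `E/F` for all `F/K` with `[F : K] ∈ D`.  For
example the fields without automorphisms of odd degree suffice for all fields of odd degree.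
3. Let `D` be closed under multiples, with greatest common divisor `1`.  If it holds for `E/X` for all
`X/K` without automorphisms with `[X : K] ∈ D`, it holds for `E/F` for all `F/K`.  If it holds for all
those with `M ∣ [X : K]`, it holds for all `F/K` such that `M / gcd(M, [F : K])` is odd and `L(E/F, s)`
has a continuation.
4. Let `𝓕` be a family of finite extensions of `K`, closed under isomorphisms and larger fields, such
that every `σ` fixes an odd number of the embeddings of some `F ∈ 𝓕`.  If it holds for `E/F` for all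
`F ∈ 𝓕` without automorphisms and `L(E/K, s)` has a continuation, it holds for `E/K`.
B. If it holds for all elliptic curves over all number fields without automorphisms of degree in a set
`D` as in 3, it holds for all elliptic curves over all number fields.  If it holds for all elliptic
curves over all number fields without automorphisms of degree divisible by the odd number `M`, it holds
for all elliptic curves over number fields whose `L`-function has a continuation. -/
theorem result (U : Set (Set ℂ)) (hU : IsDomains U) :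
    (∀ (K : Type) [Field K] [NumberField K] (E : WeierstrassCurve K), E.IsElliptic →
      Relation U E ∧ Spread U E ∧ ClassLaw U E ∧ DegreeLaw U E ∧ FamilyLaw U E) ∧
    (∀ D : Set ℕ, IsSparse D →
      (∀ (X : Type) [Field X] [NumberField X], NoAutomorphisms X → Module.finrank ℚ X ∈ D →
        ∀ E : WeierstrassCurve X, E.IsElliptic → ModTwo U E) →
      ∀ (F : Type) [Field F] [NumberField F] (E : WeierstrassCurve F), E.IsElliptic →
        ModTwo U E) ∧
    (∀ M : ℕ, Odd M →
      (∀ (X : Type) [Field X] [NumberField X], NoAutomorphisms X → M ∣ Module.finrank ℚ X →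
        ∀ E : WeierstrassCurve X, E.IsElliptic → ModTwo U E) →
      ∀ (F : Type) [Field F] [NumberField F] (E : WeierstrassCurve F), E.IsElliptic →
        Continues U E → ModTwo U E) := by
  have hU' : Pool.Agent.Q5.BR.IsDomains U := hU
  refine ⟨?_, ?_, ?_⟩
  · intro K _ _ E hE
    refine ⟨?_, part1 hU hE, part2 hU hE, part3 hU hE, ?_⟩
    · intro p hp hlt
      have hpf : Fact p.Prime := ⟨hp⟩
      obtain ⟨ι, iι, Y, n, hdeg, hrig, hrel⟩ := Pool.Agent.Q5.RF.exists_rigid_relation K p hlt
      refine ⟨ι, iι, fun j => (Y j).F, fun j => inferInstance, fun j => inferInstance,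
        fun j => inferInstance, n, fun j => ⟨hrig j, hdeg j⟩, fun σ => ?_, ?_⟩
      · rw [← hrel σ]
        refine Finset.sum_congr rfl fun j _ => ?_
        rw [fix_eq]
      · intro V₀ V hV₀ hV r₀ r hr₀ hr
        exact Pool.Agent.Q92.PA.defect_rel (X := Y) (n := n) (m := (p : ℤ)) hU' hE hrel hV₀ hV
          ((hasOrder_iff U _ _).1 hr₀) fun j => (hasOrder_iff U _ _).1 (hr j)
    · rintro 𝓕 ⟨h1, h2, h3⟩ h4 h5 hc
      rw [modTwo_iff]
      obtain ⟨c, hc1, h7⟩ := Pool.Agent.Q92.PA.two_family hU' hE (𝓕 := 𝓕) ⟨h1, h2,
        fun F hF F' hF' => by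
          have hfd := h1 F hF
          have hfd' := h1 F' hF'
          exact h3 F hF _ inferInstance le_sup_left,
        fun σ => by
          obtain ⟨F, hF, hodd⟩ := h4 σ
          have hfd := h1 F hF
          have hnf : NumberField F := NumberField.of_module_finite K F
          refine ⟨F, hF, ?_⟩
          rw [← fix_eq]
          exact fun h => Nat.not_even_iff_odd.2 hodd (even_iff_two_dvd.2 h)⟩
        (fun F hF hnf => by
          refine Pool.Agent.Q5.RW.one_of_rigid (Pool.Agent.Q92.PA.two_law hU' hE) F
            fun X _ _ _ _ _ hX => ?_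
          obtain ⟨X', hle, hfd, ⟨e⟩⟩ := Pool.Agent.Q5.RW.exists_inside F X
          have hnf' : NumberField X' := NumberField.of_module_finite K _
          refine Pool.Agent.Q5.RW.isLaw_iso (Pool.Agent.Q92.PA.two_law hU' hE) e
            ((modTwo_iff U _).1 (@h5 X' (h3 F hF X' hfd hle) ?_ hnf'))
          intro τ x
          have h8 := hX ((e.toRingEquiv.trans τ).trans e.symm.toRingEquiv) (e.symm x)
          change e.symm (τ (e (e.symm x))) = e.symm x at h8
          rw [e.apply_symm_apply] at h8
          exact e.symm.injective h8)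
      exact Pool.Agent.Q92.PA.twoB_one_of_odd hU' hc1 h7 ((continues_iff hU hE).1 hc)
  · intro D hD h F _ _ E hE
    have h1 := (part3 hU hE).1 D hD (fun F' _ _ _ hr hd => h F' hr (by
      rw [← Module.finrank_mul_finrank ℚ F F', mul_comm]
      exact hD.1 _ hd _ Module.finrank_pos) _ inferInstance) F
    rw [Algebra.algebraMap_self, WeierstrassCurve.map_id] at h1
    exact h1
  · intro M hM h F _ _ E hE hc
    have h1 := (part3 hU hE).2 M (fun F' _ _ _ hr hd => h F' hr (by
      rw [← Module.finrank_mul_finrank ℚ F F']
      exact hd.mul_left _) _ inferInstance) F (by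
      rw [Module.finrank_self, Nat.gcd_one_right, Nat.div_one]
      exact hM)
    rw [Algebra.algebraMap_self, WeierstrassCurve.map_id] at h1
    exact h1 hc

end Pool.Agent.Results.MP_413b36_nt.RigidFields
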